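import Pool.Agent.H808R2.Gap.Fin

set_option autoImplicit false

/-!
# Vanishing deficiency for Hadamard gap series
-/

open MeasureTheory Filter Topology Set Metric Real

noncomputable section

namespace Pool.Agent.H808R2.Gap

theorem core {κ : ℝ} (hκ0 : 0 < κ) (hκ1 : κ < 1) (a : ℕ → ℂ) (n : ℕ → ℕ) (c w : ℂ)
    (hn : ∀ k, 1 ≤ n k) (hg : ∀ k, (n k : ℝ) ≤ κ ^ 2 * n (k + 1))
    (hs : ∀ ρ : ℝ, 0 < ρ → ρ < 1 → Summable fun k => ‖a k‖ * ρ ^ n k)
    (F : ℂ → ℂ) (hF : ∀ z : ℂ, ‖z‖ < 1 → F z - w = gs a n c z)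
    (hT : Tendsto (fun r : ℝ => (2 * Real.pi)⁻¹ * ∫ θ in (0:ℝ)..(2 * Real.pi),
          max 0 (Real.log ‖F (circleMap 0 r θ)‖)) (nhdsWithin 1 (Set.Iio 1)) atTop)
    (ε : ℝ) (hε : 0 < ε) (r₀ : ℝ) (hr₀ : r₀ < 1) :
    ∃ r : ℝ, r₀ < r ∧ r < 1 ∧
      (2 * Real.pi)⁻¹ * ∫ θ in (0:ℝ)..(2 * Real.pi),
          max 0 (Real.log (‖F (circleMap 0 r θ) - w‖⁻¹))
        ≤ ε * ((2 * Real.pi)⁻¹ * ∫ θ in (0:ℝ)..(2 * Real.pi),
          max 0 (Real.log ‖F (circleMap 0 r θ)‖)) := by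
  obtain ⟨C, hC⟩ := log_minus_bound hκ0 hκ1
  have h1 : ∀ᶠ r in nhdsWithin (1:ℝ) (Set.Iio 1), |C| / ε ≤ (2 * Real.pi)⁻¹ *
      ∫ θ in (0:ℝ)..(2 * Real.pi), max 0 (Real.log ‖F (circleMap 0 r θ)‖) :=
    hT.eventually_ge_atTop _
  have h2 : ∀ᶠ r in nhdsWithin (1:ℝ) (Set.Iio 1), 2 * ‖c‖ + ‖w‖ + 2 ≤ (2 * Real.pi)⁻¹ *
      ∫ θ in (0:ℝ)..(2 * Real.pi), max 0 (Real.log ‖F (circleMap 0 r θ)‖) :=
    hT.eventually_ge_atTop _
  have h3 : ∀ᶠ r in nhdsWithin (1:ℝ) (Set.Iio 1), r ∈ Ioo (max r₀ 0) 1 :=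
    Ioo_mem_nhdsLT (max_lt hr₀ one_pos)
  obtain ⟨r, ⟨hr1, hr2⟩, hr3, hr4⟩ := ((h1.and h2).and h3).exists
  have hr0 : 0 < r := lt_of_le_of_lt (le_max_right _ _) hr3
  refine ⟨r, lt_of_le_of_lt (le_max_left _ _) hr3, hr4, ?_⟩
  have hmono : StrictMono n := by
    apply strictMono_nat_of_lt_succ
    intro i
    have h1 := hg i
    have h2 : (0 : ℝ) < n (i + 1) := by exact_mod_cast hn (i + 1)
    have hk2 : κ ^ 2 < 1 := pow_lt_one₀ hκ0.le hκ1 (by norm_num)
    have h3 : (n i : ℝ) < n (i + 1) := by nlinarith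
    exact_mod_cast h3
  have hhd : DifferentiableOn ℂ (gs a n c) (ball 0 1) := gs_diff hs
  have hsph : sphere (0 : ℂ) r ⊆ ball 0 1 := by
    intro z hz
    rw [mem_sphere_zero_iff_norm] at hz
    rw [mem_ball_zero_iff, hz]; exact hr4
  have hnc : ∀ θ : ℝ, ‖circleMap 0 r θ‖ < 1 := by
    intro θ
    rw [norm_circleMap_zero, abs_of_pos hr0]; exact hr4
  have hFg : ∀ θ : ℝ, F (circleMap 0 r θ) = gs a n c (circleMap 0 r θ) + w := by
    intro θ
    rw [← hF _ (hnc θ)]; ring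
  have hgc : Continuous fun θ : ℝ => gs a n c (circleMap 0 r θ) := by
    apply hhd.continuousOn.comp_continuous (by fun_prop)
    intro θ
    rw [mem_ball_zero_iff]
    exact hnc θ
  have hβ0 : ∀ k, 0 ≤ ‖a k‖ * r ^ n k := fun k => by positivity
  have hsq : Summable fun k => (‖a k‖ * r ^ n k) ^ 2 := summable_sq hβ0 (hs r hr0 hr4)
  set S := ∑' k, (‖a k‖ * r ^ n k) ^ 2 with hS
  have hS0 : 0 ≤ S := tsum_nonneg fun k => by positivity
  set σ := Real.sqrt S with hσ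
  have hσ0 : 0 ≤ σ := Real.sqrt_nonneg _
  have hσ2 : σ ^ 2 = S := Real.sq_sqrt hS0
  have hpi : (0 : ℝ) < 2 * Real.pi := by positivity
  -- upper bound for the characteristic
  have hTle : (2 * Real.pi)⁻¹ * ∫ θ in (0:ℝ)..(2 * Real.pi), max 0 (Real.log ‖F (circleMap 0 r θ)‖) ≤
      ‖c‖ + (σ + 1) + ‖w‖ := by
    have hl1 := l1_le (c := c) hmono hr0 (hs r hr0 hr4) (σ := σ + 1) (by linarith)
      (by nlinarith) (hhd.continuousOn.mono hsph)
    have e1 : Real.circleAverage (fun z => ‖gs a n c z‖) 0 r =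
        (2 * Real.pi)⁻¹ * ∫ θ in (0:ℝ)..(2 * Real.pi), ‖gs a n c (circleMap 0 r θ)‖ := rfl
    have e2 : ∫ θ in (0:ℝ)..(2 * Real.pi), max 0 (Real.log ‖F (circleMap 0 r θ)‖) ≤
        ∫ θ in (0:ℝ)..(2 * Real.pi), (‖gs a n c (circleMap 0 r θ)‖ + ‖w‖) := by
      apply intervalIntegral.integral_mono_on hpi.le
      · apply Continuous.intervalIntegrable
        have e3 : (fun θ : ℝ => max 0 (Real.log ‖F (circleMap 0 r θ)‖)) =
            fun θ : ℝ => Real.posLog ‖gs a n c (circleMap 0 r θ) + w‖ := by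
          funext θ
          rw [hFg, Real.posLog]
        rw [e3]
        exact Real.continuous_posLog.comp (hgc.add continuous_const).norm
      · apply Continuous.intervalIntegrable
        exact hgc.norm.add continuous_const
      · intro θ _
        apply max_le
        · positivity
        · rw [hFg]
          refine le_trans ?_ (norm_add_le _ _)
          rcases eq_or_lt_of_le (norm_nonneg (gs a n c (circleMap 0 r θ) + w)) with h0 | h0
          · rw [← h0, Real.log_zero]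
          · have := Real.log_le_sub_one_of_pos h0
            linarith
    rw [intervalIntegral.integral_add (hgc.norm.intervalIntegrable _ _) intervalIntegrable_const,
      intervalIntegral.integral_const, smul_eq_mul, sub_zero] at e2
    have e4 := mul_le_mul_of_nonneg_left e2 (inv_nonneg.2 hpi.le)
    rw [mul_add] at e4
    have e5 : (2 * Real.pi)⁻¹ * (2 * Real.pi * ‖w‖) = ‖w‖ := by field_simp
    rw [e5, ← e1] at e4
    linarith
  have hσ1 : 1 ≤ σ := by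
    have := norm_nonneg c
    linarith
  have hcσ : ‖c‖ ≤ σ := by linarith
  have hgm := hC a n c hn hg hs r σ hr0 hr4 hσ1 (by rw [hσ2]) hcσ
  -- the proximity function
  have hprox : (2 * Real.pi)⁻¹ * ∫ θ in (0:ℝ)..(2 * Real.pi),
          max 0 (Real.log (‖F (circleMap 0 r θ) - w‖⁻¹)) ≤ C := by
    refine le_trans ?_ hgm
    have e1 : Real.circleAverage (gm (gs a n c) σ) 0 r =
        (2 * Real.pi)⁻¹ * ∫ θ in (0:ℝ)..(2 * Real.pi), gm (gs a n c) σ (circleMap 0 r θ) := rfl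
    rw [e1]
    apply mul_le_mul_of_nonneg_left _ (inv_nonneg.2 hpi.le)
    have e2 : ∀ θ : ℝ, max 0 (Real.log (‖F (circleMap 0 r θ) - w‖⁻¹)) =
        gm (gs a n c) 1 (circleMap 0 r θ) := by
      intro θ
      rw [hF _ (hnc θ), gm, Real.log_one, zero_sub, Real.log_inv]
    simp only [e2]
    apply intervalIntegral.integral_mono_on hpi.le (gm_int hhd hr0 hr4 1) (gm_int hhd hr0 hr4 σ)
    intro θ _
    unfold gm
    apply max_le_max le_rfl
    have := Real.log_nonneg hσ1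
    rw [Real.log_one]
    linarith
  refine hprox.trans ((le_abs_self C).trans ?_)
  rw [div_le_iff₀ hε] at hr1
  rw [mul_comm]
  exact hr1

end Pool.Agent.H808R2.Gap
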