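import Pool.Agent.H808R2.Gap.Main

set_option autoImplicit false

/-!
# The logarithmic integral of a Hadamard gap series: assembly
-/

open MeasureTheory Filter Topology Set Metric Real
open scoped ComplexConjugate

noncomputable section

namespace Pool.Agent.H808R2.Gap

section

variable {a : ℕ → ℂ} {n : ℕ → ℕ} {c : ℂ} {κ r σ : ℝ}

/-- the window average of the local increments -/
def Bw (h : ℂ → ℂ) (y s δ θ : ℝ) : ℝ := (2 * δ)⁻¹ * ∫ v in (-δ)..δ, Bf h y s (θ + v)

theorem ptwise (hκ0 : 0 < κ) (hκ1 : κ < 1) (hn : ∀ k, 1 ≤ n k)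
    (hg : ∀ k, (n k : ℝ) ≤ κ ^ 2 * n (k + 1))
    (hs : ∀ ρ : ℝ, 0 < ρ → ρ < 1 → Summable fun k => ‖a k‖ * ρ ^ n k)
    (hr : 0 < r) (hr1 : r < 1) {k : ℕ} (hk : Reg (fun j => ‖a j‖ * r ^ n j) κ k)
    (hβ : 0 < ‖a k‖ * r ^ n k) (hσ : 0 < σ) (θ : ℝ) :
    PI r (gm (gs a n c) σ) (Complex.exp (((Real.log r - 2 / n k : ℝ) : ℂ) + θ * Complex.I)) ≤
      CH κ ^ 2 * PI r (gp (gs a n c) σ)
        (Complex.exp (((Real.log r - 2 / n k : ℝ) : ℂ) + θ * Complex.I)) +
      CH κ * σ * (16 * Real.exp 4 / (‖a k‖ * r ^ n k) ^ 2) *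
        Bw (gs a n c) (Real.log r - 2 / n k) (1 / n k) (TT κ / n k) θ := by
  set h := gs a n c with hh
  set β := ‖a k‖ * r ^ n k with hβd
  have hhd : DifferentiableOn ℂ h (ball 0 1) := gs_diff hs
  have hN : (0 : ℝ) < n k := by exact_mod_cast hn k
  have hN1 : (1 : ℝ) ≤ n k := by exact_mod_cast hn k
  set N : ℝ := ((n k : ℕ) : ℝ) with hNd
  have hT := TT_pos hκ0 hκ1
  have hlr : Real.log r < 0 := Real.log_neg hr hr1
  set y : ℝ := Real.log r - 2 / N with hy
  set s : ℝ := 1 / N with hsd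
  set δ : ℝ := TT κ / N with hδ
  have hs0 : 0 < s := by positivity
  have hδ0 : 0 < δ := by positivity
  have hys : y + s = Real.log r - 1 / N := by rw [hy, hsd]; ring
  have hys' : y - s = Real.log r - 3 / N := by rw [hy, hsd]; ring
  have hysneg : y + s < 0 := by
    have : 0 < 1 / N := by positivity
    rw [hys]; linarith
  set V := Bw h y s δ θ with hV
  have hwl : ∀ M : ℝ, 0 < M → (∀ ζ : ℂ, |ζ.re - y| ≤ s → |ζ.im - θ| ≤ δ + s → nH h ζ ≤ M) →
      β ^ 2 * Real.exp (-4) / (16 * M) ≤ V := by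
    intro M hM hbd
    have h1 := window_lower (B := N * β * Real.exp (-2)) hhd hs0 hysneg hδ0 hM (by positivity) hbd
      (deriv_window hκ0 hκ1 hn hg hs hr hr1 hk θ)
    have h2 : s ^ 2 * (N * β * Real.exp (-2)) ^ 2 / (16 * M) = β ^ 2 * Real.exp (-4) / (16 * M) := by
      have : Real.exp (-4) = Real.exp (-2) ^ 2 := by
        rw [← Real.exp_nat_mul]; norm_num
      rw [this, hsd]
      field_simp
    rw [h2] at h1
    exact h1
  -- the maximum over the box
  have hcomp : IsCompact (Icc (y - s) (y + s) ×ℂ Icc (θ - (δ + s)) (θ + (δ + s))) :=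
    isCompact_Icc.reProdIm isCompact_Icc
  have hbox : ∀ ζ : ℂ, ζ ∈ (Icc (y - s) (y + s) ×ℂ Icc (θ - (δ + s)) (θ + (δ + s))) ↔
      |ζ.re - y| ≤ s ∧ |ζ.im - θ| ≤ δ + s := by
    intro ζ
    rw [Complex.mem_reProdIm, mem_Icc, mem_Icc, abs_le, abs_le]
    constructor
    · rintro ⟨⟨h1, h2⟩, h3, h4⟩
      exact ⟨⟨by linarith, by linarith⟩, by linarith, by linarith⟩
    · rintro ⟨⟨h1, h2⟩, h3, h4⟩
      exact ⟨⟨by linarith, by linarith⟩, by linarith, by linarith⟩
  have hcont : ContinuousOn (nH h) (Icc (y - s) (y + s) ×ℂ Icc (θ - (δ + s)) (θ + (δ + s))) := by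
    unfold nH
    apply ContinuousOn.norm
    apply hhd.continuousOn.comp Complex.continuous_exp.continuousOn
    intro ζ hζ
    rw [hbox] at hζ
    rw [mem_ball_zero_iff, Complex.norm_exp]
    have := (abs_le.1 hζ.1).2
    calc Real.exp ζ.re < Real.exp 0 := Real.exp_lt_exp.2 (by linarith)
      _ = 1 := Real.exp_zero
  set ζ₀ : ℂ := (y : ℂ) + θ * Complex.I with hζ₀
  have hζ₀re : ζ₀.re = y := by simp [hζ₀]
  have hζ₀im : ζ₀.im = θ := by simp [hζ₀]
  have hne : (Icc (y - s) (y + s) ×ℂ Icc (θ - (δ + s)) (θ + (δ + s))).Nonempty := by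
    refine ⟨ζ₀, (hbox ζ₀).2 ?_⟩
    rw [hζ₀re, hζ₀im, sub_self, sub_self, abs_zero]
    exact ⟨hs0.le, by linarith⟩
  obtain ⟨ζ', hζ'mem, hζ'max⟩ := hcomp.exists_isMaxOn hne hcont
  have hζ'b := (hbox ζ').1 hζ'mem
  set M := nH h ζ' with hM
  have hbd : ∀ ζ : ℂ, |ζ.re - y| ≤ s → |ζ.im - θ| ≤ δ + s → nH h ζ ≤ M :=
    fun ζ h1 h2 => hζ'max ((hbox ζ).2 ⟨h1, h2⟩)
  have hMpos : 0 < M := by
    have hM0 : 0 ≤ M := norm_nonneg _
    rcases eq_or_lt_of_le hM0 with h0 | h0
    · exfalso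
      have hq : 0 < β ^ 2 * Real.exp (-4) := by positivity
      set ε := β ^ 2 * Real.exp (-4) / (16 * (|V| + 1)) with hε
      have hV1 : 0 < |V| + 1 := by positivity
      have hε0 : 0 < ε := by positivity
      have h1 := hwl ε hε0 fun ζ h1 h2 => (hbd ζ h1 h2).trans (by rw [← h0]; exact hε0.le)
      have h2 : β ^ 2 * Real.exp (-4) / (16 * ε) = |V| + 1 := by
        rw [hε]; field_simp
      rw [h2] at h1
      have := le_abs_self V
      linarith
    · exact h0
  have hVM := hwl M hMpos hbd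
  -- σ / M is controlled
  have hσM : σ / M ≤ σ * (16 * Real.exp 4 / β ^ 2) * V := by
    have h1 : σ * (16 * Real.exp 4 / β ^ 2) * (β ^ 2 * Real.exp (-4) / (16 * M)) = σ / M := by
      rw [Real.exp_neg]
      have := (Real.exp_pos 4).ne'
      field_simp
    rw [← h1]
    gcongr
  -- Poisson–Jensen at ζ'
  have hre' : ζ'.re ≤ Real.log r - 1 / N := by
    have := (abs_le.1 hζ'b.1).2
    linarith
  have hre'' : Real.log r - 3 / N ≤ ζ'.re := by
    have := (abs_le.1 hζ'b.1).1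
    linarith
  have hzb : Complex.exp ζ' ∈ ball (0 : ℂ) r := by
    rw [mem_ball_zero_iff, Complex.norm_exp]
    calc Real.exp ζ'.re < Real.exp (Real.log r) := by
          apply Real.exp_lt_exp.2
          have : 0 < 1 / N := by positivity
          linarith
      _ = r := Real.exp_log hr
  have hne' : h (Complex.exp ζ') ≠ 0 := by
    intro h0
    have : M = 0 := by rw [hM, nH, h0, norm_zero]
    linarith
  have hPJ := PJ_parts (σ := σ) hhd hr hr1 hzb hne'
  have hMe : Real.log ‖h (Complex.exp ζ')‖ = Real.log M := rfl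
  rw [hMe] at hPJ
  have hlog : Real.log σ - Real.log M ≤ σ / M := by
    rw [← Real.log_div hσ.ne' hMpos.ne']
    have := Real.log_le_sub_one_of_pos (div_pos hσ hMpos)
    linarith
  -- Harnack
  have hN3 : (0:ℝ) < 1 / N := by positivity
  have hr1' : ζ₀.re ≤ Real.log r - 1 / N := by
    rw [hζ₀re, hy]
    have : 2 / N = 1 / N + 1 / N := by ring
    linarith
  have hr1'' : Real.log r - 3 / N ≤ ζ₀.re := by
    rw [hζ₀re, hy]
    have : 3 / N = 2 / N + 1 / N := by ring
    linarith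
  have hL : 0 ≤ TT κ + 2 := by linarith
  have hd1 : ‖ζ₀ - ζ'‖ ≤ (TT κ + 2) / N := by
    refine (Complex.norm_le_abs_re_add_abs_im _).trans ?_
    rw [Complex.sub_re, Complex.sub_im, hζ₀re, hζ₀im, abs_sub_comm, abs_sub_comm θ]
    have e : (TT κ + 2) / N = s + (δ + s) := by rw [hsd, hδ]; ring
    rw [e]
    linarith [hζ'b.1, hζ'b.2]
  have hd2 : ‖ζ' - ζ₀‖ ≤ (TT κ + 2) / N := by rw [norm_sub_rev]; exact hd1
  have hH1 : PI r (gm h σ) (Complex.exp ζ₀) ≤ CH κ * PI r (gm h σ) (Complex.exp ζ') :=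
    PI_compare hr hN1 hL hr1' hr1'' hre' hre'' hd1 (gm_int hhd hr hr1 σ) (gm_nonneg h σ)
  have hH2 : PI r (gp h σ) (Complex.exp ζ') ≤ CH κ * PI r (gp h σ) (Complex.exp ζ₀) :=
    PI_compare hr hN1 hL hre' hre'' hr1' hr1'' hd2 (gp_int hhd hr hr1 σ) (gp_nonneg h σ)
  have hCH := CH_pos κ
  calc PI r (gm h σ) (Complex.exp ζ₀) ≤ CH κ * PI r (gm h σ) (Complex.exp ζ') := hH1
    _ ≤ CH κ * (CH κ * PI r (gp h σ) (Complex.exp ζ₀) + σ * (16 * Real.exp 4 / β ^ 2) * V) := by
        apply mul_le_mul_of_nonneg_left _ hCH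
        linarith
    _ = CH κ ^ 2 * PI r (gp h σ) (Complex.exp ζ₀) + CH κ * σ * (16 * Real.exp 4 / β ^ 2) * V := by
        ring

/-- circle average of the modulus as a function of the logarithm of the radius -/
def Aav (h : ℂ → ℂ) (x : ℝ) : ℝ := Real.circleAverage (fun z => ‖h z‖) 0 (Real.exp x)

theorem Aav_nonneg (h : ℂ → ℂ) (x : ℝ) : 0 ≤ Aav h x := by
  apply Real.circleAverage_nonneg_of_nonneg
  intro z _
  exact norm_nonneg _

theorem Aav_mono {h : ℂ → ℂ} (hh : DifferentiableOn ℂ h (ball 0 1)) {x x' : ℝ} (hxx : x ≤ x')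
    (hx' : x' < 0) : Aav h x ≤ Aav h x' := by
  rcases eq_or_lt_of_le hxx with h0 | h0
  · rw [h0]
  · apply avg_norm_mono (Real.exp_pos _) (Real.exp_lt_exp.2 h0)
    apply DifferentiableOn.diffContOnCl
    apply hh.mono
    rw [closure_ball 0 (Real.exp_pos _).ne']
    exact closedBall_subset_ball ((Real.exp_lt_exp.2 hx').trans_eq Real.exp_zero)

theorem circleMap_exp (y θ : ℝ) : circleMap 0 (Real.exp y) θ = Complex.exp ((y : ℂ) + θ * Complex.I) := by
  rw [Complex.exp_add]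
  simp [circleMap]

theorem index_ineq (hκ0 : 0 < κ) (hκ1 : κ < 1) (hn : ∀ k, 1 ≤ n k)
    (hg : ∀ k, (n k : ℝ) ≤ κ ^ 2 * n (k + 1))
    (hs : ∀ ρ : ℝ, 0 < ρ → ρ < 1 → Summable fun k => ‖a k‖ * ρ ^ n k)
    (hr : 0 < r) (hr1 : r < 1) {k : ℕ} (hk : Reg (fun j => ‖a j‖ * r ^ n j) κ k) (hσ : 0 < σ) :
    (‖a k‖ * r ^ n k) ^ 2 * (Real.circleAverage (gm (gs a n c) σ) 0 r -
      CH κ ^ 2 * Real.circleAverage (gp (gs a n c) σ) 0 r) ≤
      16 * Real.exp 4 * CH κ * σ *
        (Aav (gs a n c) (Real.log r - 1 / n k) - Aav (gs a n c) (Real.log r - 2 / n k)) := by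
  have hhd : DifferentiableOn ℂ (gs a n c) (ball 0 1) := gs_diff hs
  have hN : (0 : ℝ) < n k := by exact_mod_cast hn k
  have hlr : Real.log r < 0 := Real.log_neg hr hr1
  have h1N : (0 : ℝ) < 1 / n k := by positivity
  have h2N : (2 : ℝ) / n k = 1 / n k + 1 / n k := by ring
  have hCH := CH_pos κ
  have hβ0 : 0 ≤ ‖a k‖ * r ^ n k := by positivity
  rcases eq_or_lt_of_le hβ0 with hβ | hβ
  · rw [← hβ]
    have := Aav_mono (h := gs a n c) hhd (x := Real.log r - 2 / n k) (x' := Real.log r - 1 / n k)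
      (by linarith) (by linarith)
    have h3 : 0 ≤ Aav (gs a n c) (Real.log r - 1 / n k) - Aav (gs a n c) (Real.log r - 2 / n k) := by
      linarith
    have h4 : (0 : ℝ) ^ 2 * (Real.circleAverage (gm (gs a n c) σ) 0 r -
      CH κ ^ 2 * Real.circleAverage (gp (gs a n c) σ) 0 r) = 0 := by ring
    rw [h4]
    positivity
  have hpt := fun θ : ℝ => ptwise (c := c) hκ0 hκ1 hn hg hs hr hr1 hk hβ hσ θ
  set h := gs a n c with hh
  set β := ‖a k‖ * r ^ n k with hβd
  set y : ℝ := Real.log r - 2 / n k with hy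
  set s : ℝ := 1 / n k with hsd
  set δ : ℝ := TT κ / n k with hδ
  have hT := TT_pos hκ0 hκ1
  have hδ0 : 0 < δ := by positivity
  have hyr : Real.exp y < r := by
    calc Real.exp y < Real.exp (Real.log r) := Real.exp_lt_exp.2 (by rw [hy]; linarith)
      _ = r := Real.exp_log hr
  have hysneg : y + s < 0 := by rw [hy]; linarith
  have hexp1 : Real.exp (y + s) < 1 := (Real.exp_lt_exp.2 hysneg).trans_eq Real.exp_zero
  have fm := poisson_fubini (Real.exp_pos y) hyr (gm_int hhd hr hr1 σ)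
  have fp := poisson_fubini (Real.exp_pos y) hyr (gp_int hhd hr hr1 σ)
  have im := PI_circleIntegrable (Real.exp_pos y) hyr (gm_int hhd hr hr1 σ)
  have ip := PI_circleIntegrable (Real.exp_pos y) hyr (gp_int hhd hr hr1 σ)
  have hBc : Continuous (Bw h y s δ) := by
    unfold Bw
    refine continuous_const.mul ?_
    apply intervalIntegral.continuous_parametric_intervalIntegral_of_continuous'
    exact (Bf_cont hhd.continuousOn h1N.le hexp1).comp (continuous_fst.add continuous_snd)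
  set Cc : ℝ := CH κ * σ * (16 * Real.exp 4 / β ^ 2) with hCc
  have hint : ∫ θ in (0:ℝ)..(2 * π), PI r (gm h σ) (circleMap 0 (Real.exp y) θ) ≤
      ∫ θ in (0:ℝ)..(2 * π), (CH κ ^ 2 * PI r (gp h σ) (circleMap 0 (Real.exp y) θ) +
        Cc * Bw h y s δ θ) := by
    apply intervalIntegral.integral_mono_on (by positivity)
    · exact im
    · apply IntervalIntegrable.add
      · exact IntervalIntegrable.const_mul ip _
      · exact (hBc.const_mul _).intervalIntegrable _ _
    · intro θ _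
      rw [circleMap_exp]
      exact hpt θ
  have hsplit : ∫ θ in (0:ℝ)..(2 * π), (CH κ ^ 2 * PI r (gp h σ) (circleMap 0 (Real.exp y) θ) +
        Cc * Bw h y s δ θ) = CH κ ^ 2 * (∫ θ in (0:ℝ)..(2 * π), PI r (gp h σ) (circleMap 0 (Real.exp y) θ)) +
        Cc * ∫ θ in (0:ℝ)..(2 * π), Bw h y s δ θ := by
    rw [intervalIntegral.integral_add, intervalIntegral.integral_const_mul,
      intervalIntegral.integral_const_mul]
    · exact IntervalIntegrable.const_mul ip _
    · exact (hBc.const_mul _).intervalIntegrable _ _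
  rw [hsplit] at hint
  have hBw : ∫ θ in (0:ℝ)..(2 * π), Bw h y s δ θ = ∫ θ in (0:ℝ)..(2 * π), Bf h y s θ :=
    avg_window hhd.continuousOn h1N.le hexp1 hδ0
  rw [hBw] at hint
  have hBle := avg_Bf_le hhd h1N hexp1
  have e1 : Real.circleAverage (gm h σ) 0 r =
      (2 * π)⁻¹ * ∫ θ in (0:ℝ)..(2 * π), PI r (gm h σ) (circleMap 0 (Real.exp y) θ) := by
    rw [← fm]; rfl
  have e2 : Real.circleAverage (gp h σ) 0 r =
      (2 * π)⁻¹ * ∫ θ in (0:ℝ)..(2 * π), PI r (gp h σ) (circleMap 0 (Real.exp y) θ) := by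
    rw [← fp]; rfl
  have h2pi : 0 < (2 * π)⁻¹ := by positivity
  have hmain : Real.circleAverage (gm h σ) 0 r ≤ CH κ ^ 2 * Real.circleAverage (gp h σ) 0 r +
      Cc * (Aav h (y + s) - Aav h y) := by
    have h3 := mul_le_mul_of_nonneg_left hint h2pi.le
    have hCc0 : 0 ≤ Cc := by positivity
    have h4 := mul_le_mul_of_nonneg_left hBle hCc0
    have h5 : Cc * (Real.circleAverage (fun z => ‖h z‖) 0 (Real.exp (y + s)) -
      Real.circleAverage (fun z => ‖h z‖) 0 (Real.exp y)) = Cc * (Aav h (y + s) - Aav h y) := rfl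
    have h6 : Cc * ((2 * π)⁻¹ * ∫ θ in (0:ℝ)..(2 * π), Bf h y (1 / n k) θ) =
        (2 * π)⁻¹ * (Cc * ∫ θ in (0:ℝ)..(2 * π), Bf h y s θ) := by
      rw [hsd]; ring
    rw [e1, e2]
    rw [mul_add] at h3
    rw [h6] at h4
    have h7 : (2 * π)⁻¹ * (CH κ ^ 2 * ∫ θ in (0:ℝ)..(2 * π), PI r (gp h σ) (circleMap 0 (Real.exp y) θ)) =
      CH κ ^ 2 * ((2 * π)⁻¹ * ∫ θ in (0:ℝ)..(2 * π), PI r (gp h σ) (circleMap 0 (Real.exp y) θ)) := by
      ring
    linarith
  have hys : y + s = Real.log r - s := by rw [hy, hsd]; ring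
  rw [hys] at hmain
  have hfin : β ^ 2 * (Real.circleAverage (gm h σ) 0 r - CH κ ^ 2 * Real.circleAverage (gp h σ) 0 r) ≤
      β ^ 2 * (Cc * (Aav h (Real.log r - s) - Aav h y)) := by
    apply mul_le_mul_of_nonneg_left _ (by positivity)
    linarith
  refine hfin.trans (le_of_eq ?_)
  rw [hCc]
  field_simp

/-- the final estimate: the negative part of the logarithm of `|h|/σ` has bounded integral -/
theorem log_minus_bound (hκ0 : 0 < κ) (hκ1 : κ < 1) : ∃ C : ℝ, ∀ (a : ℕ → ℂ) (n : ℕ → ℕ) (c : ℂ)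
    (_ : ∀ k, 1 ≤ n k) (_ : ∀ k, (n k : ℝ) ≤ κ ^ 2 * n (k + 1))
    (_ : ∀ ρ : ℝ, 0 < ρ → ρ < 1 → Summable fun k => ‖a k‖ * ρ ^ n k)
    (r σ : ℝ) (_ : 0 < r) (_ : r < 1) (_ : 1 ≤ σ)
    (_ : ∑' k, (‖a k‖ * r ^ n k) ^ 2 = σ ^ 2) (_ : ‖c‖ ≤ σ),
    Real.circleAverage (gm (gs a n c) σ) 0 r ≤ C := by
  have hk2 : κ ^ 2 < 1 := pow_lt_one₀ hκ0.le hκ1 (by norm_num)
  obtain ⟨m, hm⟩ := exists_pow_lt_of_lt_one (show (0:ℝ) < 1 / 2 by norm_num) hk2
  have hCH := CH_pos κ
  refine ⟨2 * CH κ ^ 2 + 64 * Real.exp 4 * CH κ * m / (1 - κ ^ 2), ?_⟩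
  intro a n c hn hg hs r σ hr hr1 hσ1 hσ2 hc
  have h1k : 0 < 1 - κ ^ 2 := by linarith
  have hσ : 0 < σ := by linarith
  have hhd : DifferentiableOn ℂ (gs a n c) (ball 0 1) := gs_diff hs
  have hlr : Real.log r < 0 := Real.log_neg hr hr1
  have hmono : StrictMono n := by
    apply strictMono_nat_of_lt_succ
    intro i
    have h1 := hg i
    have h2 : (0 : ℝ) < n (i + 1) := by exact_mod_cast hn (i + 1)
    have h3 : (n i : ℝ) < n (i + 1) := by nlinarith
    exact_mod_cast h3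
  have hsph : sphere (0 : ℂ) r ⊆ ball 0 1 := by
    intro z hz
    rw [mem_sphere_zero_iff_norm] at hz
    rw [mem_ball_zero_iff, hz]; exact hr1
  have hAle : Aav (gs a n c) (Real.log r) ≤ 2 * σ := by
    unfold Aav
    rw [Real.exp_log hr]
    have := l1_le (c := c) hmono hr (hs r hr hr1) hσ hσ2.le (hhd.continuousOn.mono hsph)
    linarith
  set X := Real.circleAverage (gm (gs a n c) σ) 0 r -
      CH κ ^ 2 * Real.circleAverage (gp (gs a n c) σ) 0 r with hX
  have hgp : Real.circleAverage (gp (gs a n c) σ) 0 r ≤ 2 := by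
    have h1 : Real.circleAverage (gp (gs a n c) σ) 0 r ≤
        Real.circleAverage (fun z => σ⁻¹ • ‖gs a n c z‖) 0 r := by
      apply Real.circleAverage_mono (gp_int hhd hr hr1 σ)
      · apply ContinuousOn.circleIntegrable hr.le
        exact ((hhd.continuousOn.mono hsph).norm).const_smul (σ⁻¹)
      · intro z _
        unfold gp
        apply max_le
        · positivity
        · rw [smul_eq_mul]
          rcases eq_or_lt_of_le (norm_nonneg (gs a n c z)) with h0 | h0
          · rw [← h0, Real.log_zero, mul_zero]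
            have := Real.log_nonneg hσ1
            linarith
          · rw [← Real.log_div h0.ne' hσ.ne', ← div_eq_inv_mul]
            have := Real.log_le_sub_one_of_pos (div_pos h0 hσ)
            linarith
    refine h1.trans ?_
    rw [Real.circleAverage_fun_smul, smul_eq_mul]
    have h2 : Real.circleAverage (fun z => ‖gs a n c z‖) 0 r ≤ 2 * σ := by
      have := hAle
      unfold Aav at this
      rwa [Real.exp_log hr] at this
    calc σ⁻¹ * Real.circleAverage (fun z => ‖gs a n c z‖) 0 r ≤ σ⁻¹ * (2 * σ) := by gcongr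
      _ = 2 := by field_simp
  have hXle : X ≤ 64 * Real.exp 4 * CH κ * m / (1 - κ ^ 2) := by
    rcases le_total X 0 with h0 | h0
    · refine h0.trans ?_
      positivity
    · have hβ0 : ∀ k, 0 ≤ ‖a k‖ * r ^ n k := fun k => by positivity
      have hβt : Tendsto (fun k => ‖a k‖ * r ^ n k) atTop (𝓝 0) := (hs r hr hr1).tendsto_atTop_zero
      set Δ : ℕ → ℝ := fun j => Aav (gs a n c) (Real.log r - 1 / n j) -
        Aav (gs a n c) (Real.log r - 2 / n j) with hΔ
      have hΔ0 : ∀ j, 0 ≤ Δ j := by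
        intro j
        have hN : (0 : ℝ) < n j := by exact_mod_cast hn j
        have h1N : (0 : ℝ) < 1 / n j := by positivity
        have h2N : (2 : ℝ) / n j = 1 / n j + 1 / n j := by ring
        exact sub_nonneg.2 (Aav_mono hhd (by linarith) (by linarith))
      have hreg : ∀ j, Reg (fun j => ‖a j‖ * r ^ n j) κ j →
          (‖a j‖ * r ^ n j) ^ 2 * X ≤ (16 * Real.exp 4 * CH κ * σ) * Δ j := fun j hj =>
        index_ineq hκ0 hκ1 hn hg hs hr hr1 hj hσ
      have htel : ∀ J, ∑ j ∈ Finset.range J, Δ j ≤ m * (2 * σ) := by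
        intro J
        apply tele_shift (m := m)
        · intro j
          refine le_trans ?_ hAle
          have hN : (0 : ℝ) < n j := by exact_mod_cast hn j
          have h1N : (0 : ℝ) < 1 / n j := by positivity
          exact Aav_mono hhd (by linarith) hlr
        · positivity
        · intro j
          exact Aav_nonneg _ _
        · intro j
          have hN : (0 : ℝ) < n j := by exact_mod_cast hn j
          have hN' : (0 : ℝ) < n (m + j) := by exact_mod_cast hn (m + j)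
          have h1N : (0 : ℝ) < 2 / n (m + j) := by positivity
          apply Aav_mono hhd _ (by linarith)
          have h1 := gap_pow hκ0 hg j m
          rw [add_comm j m, pow_mul] at h1
          have h2 : 2 * (n j : ℝ) ≤ n (m + j) := by
            have : (κ ^ 2) ^ m * (n (m + j) : ℝ) ≤ 1 / 2 * n (m + j) := by gcongr
            linarith
          have h3 : 2 / (n (m + j) : ℝ) ≤ 1 / n j := by
            rw [div_le_div_iff₀ hN' hN]
            linarith
          linarith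
      have hK : ∀ K, (∑ k ∈ Finset.range K, (‖a k‖ * r ^ n k) ^ 2) * X ≤
          64 * Real.exp 4 * CH κ * m / (1 - κ ^ 2) * σ ^ 2 := by
        intro K
        obtain ⟨J, hJ⟩ := sum_regular hβ0 hβt hκ0 hκ1 h0
          (by positivity : 0 ≤ 16 * Real.exp 4 * CH κ * σ) hΔ0 hreg K
        refine hJ.trans ?_
        calc 16 * Real.exp 4 * CH κ * σ * (2 / (1 - κ ^ 2)) * ∑ j ∈ Finset.range J, Δ j
            ≤ 16 * Real.exp 4 * CH κ * σ * (2 / (1 - κ ^ 2)) * (m * (2 * σ)) := by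
              apply mul_le_mul_of_nonneg_left (htel J)
              positivity
          _ = 64 * Real.exp 4 * CH κ * m / (1 - κ ^ 2) * σ ^ 2 := by
              field_simp
              ring
      have hlim : Tendsto (fun K => (∑ k ∈ Finset.range K, (‖a k‖ * r ^ n k) ^ 2) * X) atTop
          (𝓝 (σ ^ 2 * X)) := by
        rw [← hσ2]
        exact ((summable_sq hβ0 (hs r hr hr1)).hasSum.tendsto_sum_nat).mul_const X
      have hle := le_of_tendsto' hlim hK
      rw [mul_comm] at hle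
      exact le_of_mul_le_mul_right hle (by positivity)
  have hfin : Real.circleAverage (gm (gs a n c) σ) 0 r =
      X + CH κ ^ 2 * Real.circleAverage (gp (gs a n c) σ) 0 r := by rw [hX]; ring
  rw [hfin]
  have h9 : CH κ ^ 2 * Real.circleAverage (gp (gs a n c) σ) 0 r ≤ CH κ ^ 2 * 2 := by gcongr
  linarith

end

end Pool.Agent.H808R2.Gap
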