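import Pool.Agent.H808R2.Gap.Ker

set_option autoImplicit false

/-!
# Increments of the circle averages of the modulus
-/

open MeasureTheory Filter Topology Set Metric Real
open scoped ComplexConjugate

noncomputable section

namespace Pool.Agent.H808R2.Gap

theorem exists_unit (m : ℂ) : ∃ ub : ℂ, ‖ub‖ = 1 ∧ ub * m = (‖m‖ : ℂ) := by
  refine ⟨Complex.exp (((-Complex.arg m : ℝ) : ℂ) * Complex.I), Complex.norm_exp_ofReal_mul_I _, ?_⟩
  nth_rewrite 2 [← Complex.norm_mul_exp_arg_mul_I m]
  rw [mul_left_comm, ← Complex.exp_add]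
  push_cast
  rw [show -(m.arg : ℂ) * Complex.I + (m.arg : ℂ) * Complex.I = 0 by ring]
  simp

theorem re_conj_mul (a b : ℂ) : (conj a * b).re = a.re * b.re + a.im * b.im := by
  simp [Complex.mul_re]

theorem norm_sub_sq' (a b : ℂ) : ‖a - b‖ ^ 2 = ‖a‖ ^ 2 + ‖b‖ ^ 2 - 2 * (conj b * a).re := by
  rw [re_conj_mul, ← Complex.normSq_eq_norm_sq, ← Complex.normSq_eq_norm_sq,
    ← Complex.normSq_eq_norm_sq, Complex.normSq_apply, Complex.normSq_apply, Complex.normSq_apply]
  simp only [Complex.sub_re, Complex.sub_im]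
  ring

theorem pointwise_aux {Z m D E ub : ℂ} {M : ℝ} (hE : ‖E‖ = 1) (hu : ‖ub‖ = 1) (hM : 0 < M)
    (hZ : ‖Z‖ ≤ M) :
    (ub * Z).re + 1 / (4 * M) * (2 * (conj m * Z).re - ‖m‖ ^ 2 + 2 * (conj D * (E * (Z - m))).re -
      ‖D‖ ^ 2 - ((ub * Z) ^ 2).re) ≤ ‖Z‖ := by
  have h1 : 2 * (conj m * Z).re - ‖m‖ ^ 2 + 2 * (conj D * (E * (Z - m))).re - ‖D‖ ^ 2 ≤
      ‖Z‖ ^ 2 := by
    have e1 := norm_sub_sq' (E * (Z - m)) D
    have e2 : ‖E * (Z - m)‖ = ‖Z - m‖ := by rw [norm_mul, hE, one_mul]
    have e3 := norm_sub_sq' Z m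
    rw [e2, e3] at e1
    have := sq_nonneg ‖E * (Z - m) - D‖
    linarith
  set ξ := ub * Z with hξ
  have hξn : ‖ξ‖ = ‖Z‖ := by rw [hξ, norm_mul, hu, one_mul]
  have h2 : (ξ ^ 2).re = ξ.re ^ 2 - ξ.im ^ 2 := by
    rw [pow_two, Complex.mul_re]; ring
  have h3 : ‖Z‖ ^ 2 = ξ.re ^ 2 + ξ.im ^ 2 := by
    rw [← hξn, ← Complex.normSq_eq_norm_sq, Complex.normSq_apply]; ring
  have h4 : ξ.re ≤ ‖Z‖ := by rw [← hξn]; exact Complex.re_le_norm ξ
  have h5 : ξ.im ^ 2 ≤ (‖Z‖ - ξ.re) * (2 * M) := by
    have : ξ.im ^ 2 = (‖Z‖ - ξ.re) * (‖Z‖ + ξ.re) := by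
      have : ξ.im ^ 2 = ‖Z‖ ^ 2 - ξ.re ^ 2 := by rw [h3]; ring
      rw [this]; ring
    rw [this]
    apply mul_le_mul_of_nonneg_left _ (by linarith)
    linarith
  rw [h2]
  have h6 : 1 / (4 * M) * (2 * (conj m * Z).re - ‖m‖ ^ 2 + 2 * (conj D * (E * (Z - m))).re -
      ‖D‖ ^ 2 - (ξ.re ^ 2 - ξ.im ^ 2)) ≤ 1 / (4 * M) * ((‖Z‖ - ξ.re) * (4 * M)) := by
    apply mul_le_mul_of_nonneg_left _ (by positivity)
    linarith
  have h7 : 1 / (4 * M) * ((‖Z‖ - ξ.re) * (4 * M)) = ‖Z‖ - ξ.re := by field_simp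
  linarith

/-- the circle average of the modulus of an analytic function exceeds the modulus at the center by
a quantity controlled by the derivative -/
theorem incr_lower {f : ℂ → ℂ} {c : ℂ} {R M : ℝ} {U : Set ℂ} (hU : IsOpen U)
    (hcU : closedBall c R ⊆ U) (hR : 0 < R) (hf : DifferentiableOn ℂ f U) (hM : 0 < M)
    (hb : ∀ z ∈ sphere c R, ‖f z‖ ≤ M) :
    ‖f c‖ + (R * ‖deriv f c‖) ^ 2 / (4 * M) ≤ Real.circleAverage (fun z => ‖f z‖) c R := by
  obtain ⟨ub, hub, hubm⟩ := exists_unit (f c)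
  set m := f c with hm
  set D : ℂ := R * deriv f c with hD
  set Φ : ℂ → ℂ := fun z => ub * f z + (((1 / (4 * M) : ℝ)) : ℂ) * (2 * (conj m * f z) -
    ((‖m‖ ^ 2 : ℝ) : ℂ) + 2 * (conj D * (R * dslope f c z)) - ((‖D‖ ^ 2 : ℝ) : ℂ) -
    (ub * f z) ^ 2) with hΦ
  have hcc : c ∈ U := hcU (mem_closedBall_self hR.le)
  have hds : DifferentiableOn ℂ (dslope f c) U :=
    (Complex.differentiableOn_dslope (hU.mem_nhds hcc)).2 hf
  have hΦd : DifferentiableOn ℂ Φ U := by
    rw [hΦ]
    fun_prop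
  have hΦc : DiffContOnCl ℂ Φ (ball c |R|) := by
    rw [abs_of_pos hR]
    apply DifferentiableOn.diffContOnCl
    rw [closure_ball c hR.ne']
    exact hΦd.mono hcU
  have hval : Φ c = ((‖m‖ + (R * ‖deriv f c‖) ^ 2 / (4 * M) : ℝ) : ℂ) := by
    rw [hΦ]
    simp only [dslope_same]
    rw [← hm, hubm, ← hD]
    have e1 : conj m * m = ((‖m‖ ^ 2 : ℝ) : ℂ) := by
      rw [mul_comm, Complex.mul_conj, Complex.normSq_eq_norm_sq]
    have e2 : conj D * D = ((‖D‖ ^ 2 : ℝ) : ℂ) := by
      rw [mul_comm, Complex.mul_conj, Complex.normSq_eq_norm_sq]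
    have e3 : ‖D‖ = R * ‖deriv f c‖ := by
      rw [hD, norm_mul, Complex.norm_real, Real.norm_eq_abs, abs_of_pos hR]
    rw [e1, e2, e3]
    push_cast
    ring
  have havg := hΦc.circleAverage
  have hci : CircleIntegrable Φ c R := by
    apply ContinuousOn.circleIntegrable hR.le
    exact hΦd.continuousOn.mono (sphere_subset_closedBall.trans hcU)
  have hre : Real.circleAverage (Complex.reCLM ∘ Φ) c R =
      ‖m‖ + (R * ‖deriv f c‖) ^ 2 / (4 * M) := by
    rw [Complex.reCLM.circleAverage_comp_comm hci, havg, hval]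
    simp only [Complex.reCLM_apply, Complex.ofReal_re]
  rw [← hre]
  apply Real.circleAverage_mono
  · apply ContinuousOn.circleIntegrable hR.le
    exact Complex.reCLM.continuous.comp_continuousOn
      (hΦd.continuousOn.mono (sphere_subset_closedBall.trans hcU))
  · apply ContinuousOn.circleIntegrable hR.le
    exact (hf.continuousOn.mono (sphere_subset_closedBall.trans hcU)).norm
  · intro z hz
    rw [abs_of_pos hR] at hz
    have hzc : z ≠ c := by
      rintro rfl
      simp at hz
      linarith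
    have hzn : ‖z - c‖ = R := by simpa [dist_eq_norm] using hz
    have hE : ‖(R : ℂ) / (z - c)‖ = 1 := by
      rw [norm_div, hzn, Complex.norm_real, Real.norm_eq_abs, abs_of_pos hR, div_self hR.ne']
    have h1 := pointwise_aux (Z := f z) (m := m) (D := D) hE hub hM (hb z hz)
    refine le_trans (le_of_eq ?_) h1
    have e4 : (R : ℂ) * dslope f c z = (R : ℂ) / (z - c) * (f z - m) := by
      rw [dslope_of_ne f hzc, slope_def_field]
      ring
    simp only [Function.comp_apply, Complex.reCLM_apply, hΦ]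
    rw [e4]
    simp only [Complex.add_re, Complex.sub_re, Complex.re_ofReal_mul, Complex.ofReal_re]
    have e5 : ∀ w : ℂ, (2 * w).re = 2 * w.re := by
      intro w
      simp
    rw [e5, e5]

/-- swapping two interval integrals of a continuous function -/
theorem swap_cont {F : ℝ → ℝ → ℝ} (hF : Continuous (Function.uncurry F)) {a b c d : ℝ}
    (hab : a ≤ b) (hcd : c ≤ d) :
    ∫ x in a..b, ∫ y in c..d, F x y = ∫ y in c..d, ∫ x in a..b, F x y := by
  simp only [intervalIntegral.integral_of_le hab, intervalIntegral.integral_of_le hcd]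
  apply integral_integral_swap
  rw [Measure.prod_restrict]
  apply IntegrableOn.mono_set (t := Icc a b ×ˢ Icc c d)
  · exact hF.continuousOn.integrableOn_compact (isCompact_Icc.prod isCompact_Icc)
  · exact prod_mono Ioc_subset_Icc_self Ioc_subset_Icc_self

section Lift

variable {h : ℂ → ℂ} {R₀ : ℝ}

/-- the modulus of the lift of `h` to the logarithmic coordinate -/
def nH (h : ℂ → ℂ) (ζ : ℂ) : ℝ := ‖h (Complex.exp ζ)‖

theorem nH_cont_comp (hh : ContinuousOn h (ball 0 R₀)) {X : Type} [TopologicalSpace X] {φ : X → ℂ}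
    (hφ : Continuous φ) (hb : ∀ x, Real.exp (φ x).re < R₀) : Continuous fun x => nH h (φ x) := by
  unfold nH
  apply Continuous.norm
  apply hh.comp_continuous (Complex.continuous_exp.comp hφ)
  intro x
  rw [mem_ball_zero_iff]
  simp only [Function.comp_apply, Complex.norm_exp]
  exact hb x

/-- the integral over a vertical period -/
theorem vert_avg (y η : ℝ) :
    (2 * π)⁻¹ * ∫ θ in (0:ℝ)..(2 * π), nH h (y + (θ + η) * Complex.I) =
      Real.circleAverage (fun z => ‖h z‖) 0 (Real.exp y) := by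
  rw [Real.circleAverage_eq_integral_add η, smul_eq_mul]
  congr 1
  apply intervalIntegral.integral_congr
  intro θ _
  simp only [nH, circleMap, zero_add]
  congr 2
  rw [Complex.exp_add]
  push_cast
  rfl

/-- the local increment -/
def Bf (h : ℂ → ℂ) (y s θ : ℝ) : ℝ :=
  Real.circleAverage (nH h) (y + θ * Complex.I) s - nH h (y + θ * Complex.I)

theorem re_circ (y s θ α : ℝ) :
    (circleMap ((y : ℂ) + θ * Complex.I) s α).re = y + s * Real.cos α := by
  simp [circleMap, Complex.exp_re]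

theorem F_cont (hh : ContinuousOn h (ball 0 R₀)) {y s : ℝ} (hs : 0 ≤ s) (hy : Real.exp (y + s) < R₀) :
    Continuous fun p : ℝ × ℝ => nH h (circleMap ((y : ℂ) + (p.1 : ℂ) * Complex.I) s p.2) := by
  apply nH_cont_comp hh
  · unfold circleMap
    fun_prop
  · intro p
    rw [re_circ]
    refine lt_of_le_of_lt (Real.exp_le_exp.2 ?_) hy
    have := Real.cos_le_one p.2
    nlinarith

theorem Bf_cont (hh : ContinuousOn h (ball 0 R₀)) {y s : ℝ} (hs : 0 ≤ s)
    (hy : Real.exp (y + s) < R₀) : Continuous (Bf h y s) := by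
  unfold Bf
  apply Continuous.sub
  · unfold Real.circleAverage
    simp only [smul_eq_mul]
    refine continuous_const.mul ?_
    apply intervalIntegral.continuous_parametric_intervalIntegral_of_continuous'
    exact F_cont hh hs hy
  · apply nH_cont_comp hh (by fun_prop)
    intro θ
    simp only [Complex.add_re, Complex.ofReal_re, Complex.mul_re, Complex.I_re, mul_zero,
      Complex.ofReal_im, Complex.I_im, mul_one, sub_self, add_zero]
    refine lt_of_le_of_lt (Real.exp_le_exp.2 ?_) hy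
    linarith

theorem Bf_periodic (y s : ℝ) : Function.Periodic (Bf h y s) (2 * π) := by
  have key : ∀ ζ : ℂ, nH h (ζ + 2 * π * Complex.I) = nH h ζ := by
    intro ζ
    unfold nH
    rw [Complex.exp_periodic ζ]
  intro θ
  unfold Bf
  have e : (y : ℂ) + ((θ + 2 * π : ℝ) : ℂ) * Complex.I = (y + θ * Complex.I) + 2 * π * Complex.I := by
    push_cast; ring
  rw [e, key]
  congr 1
  unfold Real.circleAverage
  congr 1
  apply intervalIntegral.integral_congr
  intro α _
  simp only
  have e2 : circleMap ((y : ℂ) + θ * Complex.I + 2 * π * Complex.I) s α =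
      circleMap ((y : ℂ) + θ * Complex.I) s α + 2 * π * Complex.I := by
    unfold circleMap; ring
  rw [e2, key]

/-- the average of the local increments is at most an increment of the circle averages -/
theorem avg_Bf_le (hh : DifferentiableOn ℂ h (ball 0 R₀)) {y s : ℝ} (hs : 0 < s)
    (hy : Real.exp (y + s) < R₀) :
    (2 * π)⁻¹ * ∫ θ in (0:ℝ)..(2 * π), Bf h y s θ ≤
      Real.circleAverage (fun z => ‖h z‖) 0 (Real.exp (y + s)) -
      Real.circleAverage (fun z => ‖h z‖) 0 (Real.exp y) := by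
  have h2π : (0 : ℝ) ≤ 2 * π := by positivity
  have hc := hh.continuousOn
  have hF := F_cont hc hs.le hy
  have hc2 : Continuous fun θ : ℝ => nH h ((y : ℂ) + θ * Complex.I) := by
    apply nH_cont_comp hc (by fun_prop)
    intro θ
    simp only [Complex.add_re, Complex.ofReal_re, Complex.mul_re, Complex.I_re, mul_zero,
      Complex.ofReal_im, Complex.I_im, mul_one, sub_self, add_zero]
    refine lt_of_le_of_lt (Real.exp_le_exp.2 ?_) hy
    linarith
  have hc1 : Continuous fun θ : ℝ => Real.circleAverage (nH h) (y + θ * Complex.I) s := by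
    unfold Real.circleAverage
    simp only [smul_eq_mul]
    refine continuous_const.mul ?_
    apply intervalIntegral.continuous_parametric_intervalIntegral_of_continuous'
    exact hF
  unfold Bf
  rw [intervalIntegral.integral_sub (hc1.intervalIntegrable _ _) (hc2.intervalIntegrable _ _), mul_sub]
  have e0 := vert_avg (h := h) y 0
  simp only [Complex.ofReal_zero, add_zero] at e0
  rw [e0]
  apply sub_le_sub_right
  have e1 : ∫ θ in (0:ℝ)..(2 * π), Real.circleAverage (nH h) (y + θ * Complex.I) s =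
      (2 * π)⁻¹ * ∫ α in (0:ℝ)..(2 * π), ∫ θ in (0:ℝ)..(2 * π),
        nH h (circleMap ((y : ℂ) + (θ : ℂ) * Complex.I) s α) := by
    have := swap_cont (F := fun θ α => nH h (circleMap ((y : ℂ) + (θ : ℂ) * Complex.I) s α)) hF h2π h2π
    rw [← this]
    unfold Real.circleAverage
    simp only [smul_eq_mul]
    rw [intervalIntegral.integral_const_mul]
  rw [e1]
  set A := Real.circleAverage (fun z => ‖h z‖) 0 (Real.exp (y + s)) with hA
  have e2 : ∀ α : ℝ, (2 * π)⁻¹ * ∫ θ in (0:ℝ)..(2 * π),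
      nH h (circleMap ((y : ℂ) + (θ : ℂ) * Complex.I) s α) ≤ A := by
    intro α
    have e3 := vert_avg (h := h) (y + s * Real.cos α) (s * Real.sin α)
    have e4 : ∀ θ : ℝ, circleMap ((y : ℂ) + (θ : ℂ) * Complex.I) s α =
        ((y + s * Real.cos α : ℝ) : ℂ) + (θ + ((s * Real.sin α : ℝ) : ℂ)) * Complex.I := by
      intro θ
      unfold circleMap
      rw [Complex.exp_mul_I]
      push_cast
      ring
    simp only [e4]
    rw [e3, hA]
    rcases eq_or_lt_of_le (show y + s * Real.cos α ≤ y + s by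
      have := Real.cos_le_one α
      nlinarith) with heq | hlt
    · rw [heq]
    · apply avg_norm_mono (Real.exp_pos _) (Real.exp_lt_exp.2 hlt)
      apply DifferentiableOn.diffContOnCl
      apply hh.mono
      rw [closure_ball 0 (Real.exp_pos _).ne']
      exact closedBall_subset_ball hy
  have hcont : Continuous fun α : ℝ => ∫ θ in (0:ℝ)..(2 * π),
        nH h (circleMap ((y : ℂ) + (θ : ℂ) * Complex.I) s α) := by
    apply intervalIntegral.continuous_parametric_intervalIntegral_of_continuous'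
    exact hF.comp continuous_swap
  calc (2 * π)⁻¹ * ((2 * π)⁻¹ * ∫ α in (0:ℝ)..(2 * π), ∫ θ in (0:ℝ)..(2 * π),
        nH h (circleMap ((y : ℂ) + (θ : ℂ) * Complex.I) s α))
      = (2 * π)⁻¹ * (∫ α in (0:ℝ)..(2 * π), (2 * π)⁻¹ * ∫ θ in (0:ℝ)..(2 * π),
        nH h (circleMap ((y : ℂ) + (θ : ℂ) * Complex.I) s α)) := by
        rw [intervalIntegral.integral_const_mul]
    _ ≤ (2 * π)⁻¹ * (∫ _α in (0:ℝ)..(2 * π), A) := by
        gcongr
        apply intervalIntegral.integral_mono_on h2π
        · exact (hcont.const_mul _).intervalIntegrable _ _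
        · exact intervalIntegrable_const
        · intro α _
          exact e2 α
    _ = A := by
        rw [intervalIntegral.integral_const, smul_eq_mul, sub_zero]
        field_simp

/-- window averages of the local increment -/
theorem avg_window (hh : ContinuousOn h (ball 0 R₀)) {y s δ : ℝ} (hs : 0 ≤ s)
    (hy : Real.exp (y + s) < R₀) (hδ : 0 < δ) :
    ∫ θ in (0:ℝ)..(2 * π), (2 * δ)⁻¹ * ∫ v in (-δ)..δ, Bf h y s (θ + v) =
      ∫ θ in (0:ℝ)..(2 * π), Bf h y s θ := by
  have h2π : (0 : ℝ) ≤ 2 * π := by positivity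
  have hB := Bf_cont hh hs hy
  have hF : Continuous (Function.uncurry fun θ v : ℝ => Bf h y s (θ + v)) :=
    hB.comp (continuous_fst.add continuous_snd)
  rw [intervalIntegral.integral_const_mul, swap_cont hF h2π (by linarith)]
  have e : ∀ v : ℝ, ∫ θ in (0:ℝ)..(2 * π), Bf h y s (θ + v) = ∫ θ in (0:ℝ)..(2 * π), Bf h y s θ := by
    intro v
    rw [intervalIntegral.integral_comp_add_right (fun θ => Bf h y s θ), zero_add, add_comm (2 * π) v]
    have := (Bf_periodic (h := h) y s).intervalIntegral_add_eq v 0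
    rw [zero_add] at this
    exact this
  simp only [e]
  rw [intervalIntegral.integral_const, smul_eq_mul]
  field_simp
  ring

end Lift

end Pool.Agent.H808R2.Gap
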