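import Mathlib

set_option autoImplicit false

/-!
# Facts on the Poisson kernel of a disc
-/

open MeasureTheory Filter Topology Set Metric Real

noncomputable section

namespace Pool.Agent.H808R2.Gap

theorem pk_apply (z w : ℂ) : poissonKernel 0 z w = (‖w‖ ^ 2 - ‖z‖ ^ 2) / ‖w - z‖ ^ 2 := by
  simp [poissonKernel_def]

theorem pk_nonneg {z w : ℂ} (h : ‖z‖ ≤ ‖w‖) : 0 ≤ poissonKernel 0 z w := by
  rw [pk_apply]
  apply div_nonneg _ (by positivity)
  have := norm_nonneg z
  nlinarith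

/-- the mean over the inner variable of the Poisson kernel -/
theorem kernel_mean {r ρ : ℝ} {w : ℂ} (hw : ‖w‖ = r) (hρ : 0 < ρ) (hρr : ρ < r) :
    Real.circleAverage (fun z => poissonKernel 0 z w) 0 ρ = 1 := by
  have h1 : (fun z => poissonKernel 0 z w) = Complex.reCLM ∘ (fun z : ℂ => (w + z) / (w - z)) := by
    funext z
    rw [poissonKernel_eq_re_herglotzRieszKernel]
    simp [herglotzRieszKernel_def]
  have hne : ∀ z ∈ closedBall (0 : ℂ) ρ, w - z ≠ 0 := by
    intro z hz h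
    have h2 : ‖z‖ ≤ ρ := by simpa using hz
    have h3 : w = z := sub_eq_zero.1 h
    rw [← h3, hw] at h2
    linarith
  have hd : DifferentiableOn ℂ (fun z : ℂ => (w + z) / (w - z)) (closedBall 0 ρ) := by
    intro z hz
    apply DifferentiableWithinAt.div
    · fun_prop
    · fun_prop
    · exact hne z hz
  have hdc : DiffContOnCl ℂ (fun z : ℂ => (w + z) / (w - z)) (ball 0 |ρ|) := by
    rw [abs_of_pos hρ]
    apply DifferentiableOn.diffContOnCl
    rw [closure_ball 0 hρ.ne']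
    exact hd
  have hci : CircleIntegrable (fun z : ℂ => (w + z) / (w - z)) 0 ρ := by
    apply ContinuousOn.circleIntegrable hρ.le
    exact hd.continuousOn.mono sphere_subset_closedBall
  rw [h1, Complex.reCLM.circleAverage_comp_comm hci, hdc.circleAverage]
  have hw0 : w ≠ 0 := by
    intro h
    rw [h, norm_zero] at hw
    linarith
  simp [div_self hw0]

theorem pk_cont {r ρ : ℝ} (hρ : 0 < ρ) (hρr : ρ < r) :
    Continuous fun p : ℝ × ℝ => poissonKernel 0 (circleMap 0 ρ p.1) (circleMap 0 r p.2) := by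
  simp only [pk_apply]
  apply Continuous.div
  · fun_prop
  · fun_prop
  · intro p h
    have h1 : ‖circleMap 0 r p.2 - circleMap 0 ρ p.1‖ = 0 := by
      simpa using h
    have h2 : circleMap 0 r p.2 = circleMap 0 ρ p.1 := sub_eq_zero.1 (norm_eq_zero.1 h1)
    have h3 := congrArg norm h2
    rw [norm_circleMap_zero, norm_circleMap_zero, abs_of_pos hρ, abs_of_pos (hρ.trans hρr)] at h3
    linarith

theorem pk_bound {r ρ : ℝ} (hρr : ρ < r) {z w : ℂ} (hz : ‖z‖ = ρ) (hw : ‖w‖ = r) :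
    ‖poissonKernel 0 z w‖ ≤ r ^ 2 / (r - ρ) ^ 2 := by
  rw [Real.norm_eq_abs, abs_of_nonneg (pk_nonneg (by rw [hz, hw]; exact hρr.le)), pk_apply]
  have h1 : r - ρ ≤ ‖w - z‖ := by
    have := norm_sub_norm_le w z
    rwa [hz, hw] at this
  have h2 : 0 < r - ρ := by linarith
  gcongr
  rw [hw]
  nlinarith [sq_nonneg ‖z‖]

theorem prod_int {r ρ : ℝ} (hρ : 0 < ρ) (hρr : ρ < r) {g : ℂ → ℝ} (hg : CircleIntegrable g 0 r) :
    Integrable (fun p : ℝ × ℝ => poissonKernel 0 (circleMap 0 ρ p.1) (circleMap 0 r p.2) *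
      g (circleMap 0 r p.2))
      ((volume.restrict (Ioc 0 (2 * π))).prod (volume.restrict (Ioc 0 (2 * π)))) := by
  have h2π : (0 : ℝ) ≤ 2 * π := by positivity
  have hg1 : Integrable (fun θ : ℝ => g (circleMap 0 r θ)) (volume.restrict (Ioc 0 (2 * π))) :=
    (intervalIntegrable_iff_integrableOn_Ioc_of_le h2π).1 hg
  have hg2 : Integrable (fun p : ℝ × ℝ => g (circleMap 0 r p.2))
      ((volume.restrict (Ioc 0 (2 * π))).prod (volume.restrict (Ioc 0 (2 * π)))) :=
    hg1.comp_snd _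
  apply Integrable.bdd_mul (c := r ^ 2 / (r - ρ) ^ 2) hg2
  · exact (pk_cont hρ hρr).aestronglyMeasurable
  · apply Eventually.of_forall
    intro p
    apply pk_bound hρr
    · rw [norm_circleMap_zero, abs_of_pos hρ]
    · rw [norm_circleMap_zero, abs_of_pos (hρ.trans hρr)]

/-- The Poisson integral -/
def PI (r : ℝ) (g : ℂ → ℝ) (z : ℂ) : ℝ :=
  Real.circleAverage (fun w => poissonKernel 0 z w * g w) 0 r

theorem PI_circleIntegrable {r ρ : ℝ} (hρ : 0 < ρ) (hρr : ρ < r) {g : ℂ → ℝ}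
    (hg : CircleIntegrable g 0 r) : CircleIntegrable (PI r g) 0 ρ := by
  have h2π : (0 : ℝ) ≤ 2 * π := by positivity
  have h := (prod_int hρ hρr hg).integral_prod_left
  unfold CircleIntegrable
  rw [intervalIntegrable_iff_integrableOn_Ioc_of_le h2π]
  have h2 := h.const_mul ((2 * π)⁻¹)
  unfold IntegrableOn
  refine h2.congr (Eventually.of_forall fun θ => ?_)
  simp only [PI, Real.circleAverage, smul_eq_mul]
  rw [intervalIntegral.integral_of_le h2π]

theorem poisson_fubini {r ρ : ℝ} (hρ : 0 < ρ) (hρr : ρ < r) {g : ℂ → ℝ}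
    (hg : CircleIntegrable g 0 r) :
    Real.circleAverage (PI r g) 0 ρ = Real.circleAverage g 0 r := by
  have h2π : (0 : ℝ) ≤ 2 * π := by positivity
  have h := integral_integral_swap (f := fun θ φ : ℝ =>
    poissonKernel 0 (circleMap 0 ρ θ) (circleMap 0 r φ) * g (circleMap 0 r φ)) (prod_int hρ hρr hg)
  have hr : 0 < r := hρ.trans hρr
  calc Real.circleAverage (PI r g) 0 ρ
      = (2 * π)⁻¹ * ((2 * π)⁻¹ * ∫ θ in Ioc 0 (2 * π), ∫ φ in Ioc 0 (2 * π),
          poissonKernel 0 (circleMap 0 ρ θ) (circleMap 0 r φ) * g (circleMap 0 r φ)) := by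
        simp only [PI, Real.circleAverage, smul_eq_mul]
        rw [intervalIntegral.integral_of_le h2π, integral_const_mul]
        simp only [intervalIntegral.integral_of_le h2π]
    _ = (2 * π)⁻¹ * ((2 * π)⁻¹ * ∫ φ in Ioc 0 (2 * π), ∫ θ in Ioc 0 (2 * π),
          poissonKernel 0 (circleMap 0 ρ θ) (circleMap 0 r φ) * g (circleMap 0 r φ)) := by
        rw [← h]
    _ = (2 * π)⁻¹ * ∫ φ in Ioc 0 (2 * π), g (circleMap 0 r φ) := by
        congr 1
        rw [← integral_const_mul]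
        congr 1
        funext φ
        rw [integral_mul_const, ← mul_assoc]
        have h1 := kernel_mean (r := r) (ρ := ρ) (w := circleMap 0 r φ)
          (by rw [norm_circleMap_zero, abs_of_pos hr]) hρ hρr
        rw [Real.circleAverage, smul_eq_mul, intervalIntegral.integral_of_le h2π] at h1
        rw [h1, one_mul]
    _ = Real.circleAverage g 0 r := by
        rw [Real.circleAverage, smul_eq_mul, intervalIntegral.integral_of_le h2π]

/-- circle averages of the modulus increase -/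
theorem avg_norm_mono {h : ℂ → ℂ} {r ρ : ℝ} (hρ : 0 < ρ) (hρr : ρ < r)
    (hh : DiffContOnCl ℂ h (ball 0 r)) :
    Real.circleAverage (fun z => ‖h z‖) 0 ρ ≤ Real.circleAverage (fun z => ‖h z‖) 0 r := by
  have hr : 0 < r := hρ.trans hρr
  have hcont : ContinuousOn h (closedBall 0 r) := by
    have := hh.2
    rwa [closure_ball 0 hr.ne'] at this
  have hg : CircleIntegrable (fun z => ‖h z‖) 0 r :=
    (hcont.mono sphere_subset_closedBall).norm.circleIntegrable hr.le
  rw [← poisson_fubini hρ hρr hg]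
  apply Real.circleAverage_mono
  · apply ContinuousOn.circleIntegrable hρ.le
    exact (hcont.mono (sphere_subset_closedBall.trans (closedBall_subset_closedBall hρr.le))).norm
  · exact PI_circleIntegrable hρ hρr hg
  · intro z hz
    rw [abs_of_pos hρ] at hz
    have hz' : ‖z‖ = ρ := by simpa using hz
    have hzb : z ∈ ball (0 : ℂ) r := by simpa [hz'] using hρr
    have h1 := hh.circleAverage_poissonKernel_smul hzb
    rw [← h1, PI]
    simp only [Real.circleAverage, smul_eq_mul]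
    rw [norm_smul, Real.norm_eq_abs, abs_of_nonneg (by positivity)]
    gcongr
    refine (intervalIntegral.norm_integral_le_integral_norm (by positivity)).trans (le_of_eq ?_)
    apply intervalIntegral.integral_congr
    intro φ _
    simp only [Pi.smul_apply', norm_smul, Real.norm_eq_abs]
    rw [abs_of_nonneg (pk_nonneg _)]
    rw [hz', norm_circleMap_zero, abs_of_pos hr]
    exact hρr.le

theorem norm_exp_sub_le {r : ℝ} (hr : 0 < r) {ζ ζ' : ℂ} (h1 : ζ.re ≤ Real.log r)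
    (h2 : ζ'.re ≤ Real.log r) : ‖Complex.exp ζ - Complex.exp ζ'‖ ≤ r * ‖ζ - ζ'‖ := by
  have hs : Convex ℝ {z : ℂ | z.re ≤ Real.log r} := convex_halfSpace_re_le _
  apply Convex.norm_image_sub_le_of_norm_deriv_le (s := {z : ℂ | z.re ≤ Real.log r})
    (f := Complex.exp) (C := r) (fun x _ => Complex.differentiableAt_exp) _ hs h2 h1
  intro x hx
  rw [Complex.deriv_exp, Complex.norm_exp]
  calc Real.exp x.re ≤ Real.exp (Real.log r) := Real.exp_le_exp.2 hx
    _ = r := Real.exp_log hr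

theorem gap_aux {N : ℝ} (hN : 1 ≤ N) : 1 / (2 * N) ≤ 1 - Real.exp (-(1 / N)) := by
  have hN0 : 0 < N := by linarith
  have h3 : 1 + 1 / N ≤ Real.exp (1 / N) := by
    have := Real.add_one_le_exp (1 / N)
    linarith
  have h5 : Real.exp (-(1 / N)) ≤ (1 + 1 / N)⁻¹ := by
    rw [Real.exp_neg]
    apply inv_anti₀ (by positivity) h3
  have h6 : (1 + 1 / N)⁻¹ = N / (N + 1) := by field_simp
  rw [h6] at h5
  have h7 : 1 / (2 * N) ≤ 1 - N / (N + 1) := by
    rw [div_le_iff₀ (by positivity)]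
    have : 1 - N / (N + 1) = 1 / (N + 1) := by field_simp; ring
    rw [this]
    rw [one_div, inv_mul_eq_div, le_div_iff₀ (by positivity)]
    linarith
  linarith

theorem num_aux {r u a b : ℝ} (hr : 0 < r) (hu0 : 0 < u) (hu1 : u < 1) (ha : r * u ^ 3 ≤ a)
    (hb0 : 0 ≤ b) (hb : b ≤ r * u) :
    r ^ 2 - a ^ 2 ≤ 3 * (r ^ 2 - b ^ 2) ∧ 0 ≤ r ^ 2 - b ^ 2 := by
  have h3 : (r * u ^ 3) ^ 2 ≤ a ^ 2 := pow_le_pow_left₀ (by positivity) ha 2
  have h4 : b ^ 2 ≤ (r * u) ^ 2 := pow_le_pow_left₀ hb0 hb 2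
  have hu2 : u ^ 2 ≤ 1 := pow_le_one₀ hu0.le hu1.le
  have hu4 : u ^ 4 ≤ 1 := pow_le_one₀ hu0.le hu1.le
  have h6 : 0 ≤ 1 - u ^ 2 := by linarith
  have h5 : 1 - u ^ 6 ≤ 3 * (1 - u ^ 2) := by
    have : 1 - u ^ 6 = (1 - u ^ 2) * (1 + u ^ 2 + u ^ 4) := by ring
    rw [this, mul_comm]
    apply mul_le_mul_of_nonneg_right _ h6
    linarith
  have h7 : r ^ 2 * (1 - u ^ 6) ≤ r ^ 2 * (3 * (1 - u ^ 2)) :=
    mul_le_mul_of_nonneg_left h5 (by positivity)
  have h8 : 0 ≤ r ^ 2 * (1 - u ^ 2) := by positivity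
  constructor
  · nlinarith
  · nlinarith

theorem frac_aux {A B D D' K : ℝ} (hD : 0 < D) (hD' : 0 < D') (h1 : D' ≤ K * D)
    (h2 : A ≤ 3 * B) (hB : 0 ≤ B) : A / D ^ 2 ≤ 3 * K ^ 2 * (B / D' ^ 2) := by
  have h3 : D' ^ 2 ≤ K ^ 2 * D ^ 2 := by
    rw [← mul_pow]
    exact pow_le_pow_left₀ hD'.le h1 2
  rw [div_le_iff₀ (by positivity)]
  have e : 3 * K ^ 2 * (B / D' ^ 2) * D ^ 2 = 3 * B * ((K ^ 2 * D ^ 2) / D' ^ 2) := by ring
  rw [e]
  have h4 : 1 ≤ (K ^ 2 * D ^ 2) / D' ^ 2 := by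
    rw [one_le_div (by positivity)]
    exact h3
  nlinarith [mul_nonneg hB (sub_nonneg.2 h4)]

/-- comparison of the Poisson kernels of two near points -/
theorem kernel_compare {r N L : ℝ} (hr : 0 < r) (hN : 1 ≤ N) (hL : 0 ≤ L) {ζ ζ' w : ℂ}
    (h1 : ζ.re ≤ Real.log r - 1 / N) (h1' : Real.log r - 3 / N ≤ ζ.re)
    (h2 : ζ'.re ≤ Real.log r - 1 / N) (h2' : Real.log r - 3 / N ≤ ζ'.re)
    (hd : ‖ζ - ζ'‖ ≤ L / N) (hw : ‖w‖ = r) :
    poissonKernel 0 (Complex.exp ζ) w ≤
      (3 * (1 + 2 * L) ^ 2) * poissonKernel 0 (Complex.exp ζ') w := by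
  have hN0 : 0 < N := by linarith
  set u := Real.exp (-(1 / N)) with hu
  have hu0 : 0 < u := Real.exp_pos _
  have hu3 : Real.exp (-(3 / N)) = u ^ 3 := by
    rw [hu, ← Real.exp_nat_mul]
    congr 1
    push_cast
    ring
  have hgap : 1 / (2 * N) ≤ 1 - u := gap_aux hN
  have hu1 : u < 1 := by
    have : 0 < 1 / (2 * N) := by positivity
    linarith
  have key : ∀ ξ : ℂ, ξ.re ≤ Real.log r - 1 / N → Real.log r - 3 / N ≤ ξ.re →
      ‖Complex.exp ξ‖ ≤ r * u ∧ r * u ^ 3 ≤ ‖Complex.exp ξ‖ := by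
    intro ξ ha hb
    rw [Complex.norm_exp]
    constructor
    · calc Real.exp ξ.re ≤ Real.exp (Real.log r - 1 / N) := Real.exp_le_exp.2 ha
        _ = r * u := by rw [sub_eq_add_neg, Real.exp_add, Real.exp_log hr]
    · calc r * u ^ 3 = Real.exp (Real.log r - 3 / N) := by
            rw [sub_eq_add_neg, Real.exp_add, Real.exp_log hr, hu3]
        _ ≤ Real.exp ξ.re := Real.exp_le_exp.2 hb
  obtain ⟨a1, a2⟩ := key ζ h1 h1'
  obtain ⟨b1, b2⟩ := key ζ' h2 h2'
  set z := Complex.exp ζ with hz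
  set z' := Complex.exp ζ' with hz'
  have hlog1 : ζ.re ≤ Real.log r := by
    have : 0 < 1 / N := by positivity
    linarith
  have hlog2 : ζ'.re ≤ Real.log r := by
    have : 0 < 1 / N := by positivity
    linarith
  have hzz : ‖z - z'‖ ≤ r * (L / N) :=
    (norm_exp_sub_le hr hlog1 hlog2).trans (by gcongr)
  have hwz : r * (1 / (2 * N)) ≤ ‖w - z‖ := by
    have h3 := norm_sub_norm_le w z
    rw [hw] at h3
    have : r * (1 / (2 * N)) ≤ r * (1 - u) := by gcongr
    linarith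
  have hwz' : 0 < ‖w - z'‖ := by
    have h3 := norm_sub_norm_le w z'
    rw [hw] at h3
    have : r * (1 / (2 * N)) ≤ r * (1 - u) := by gcongr
    have : 0 < r * (1 / (2 * N)) := by positivity
    linarith
  have hwz0 : 0 < ‖w - z‖ := lt_of_lt_of_le (by positivity) hwz
  have hd1 : ‖w - z'‖ ≤ (1 + 2 * L) * ‖w - z‖ := by
    have h3 : ‖w - z'‖ ≤ ‖w - z‖ + ‖z - z'‖ := by
      have : w - z' = (w - z) + (z - z') := by ring
      rw [this]
      exact norm_add_le _ _
    have h4 : r * (L / N) = 2 * L * (r * (1 / (2 * N))) := by field_simp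
    have h5 : 2 * L * (r * (1 / (2 * N))) ≤ 2 * L * ‖w - z‖ := by gcongr
    nlinarith
  obtain ⟨hnum, hnum'⟩ := num_aux hr hu0 hu1 a2 (norm_nonneg z') b1
  rw [pk_apply, pk_apply, hw]
  exact frac_aux hwz0 hwz' hd1 hnum hnum'

/-- Harnack's inequality for Poisson integrals of nonnegative functions -/
theorem PI_compare {r N L : ℝ} (hr : 0 < r) (hN : 1 ≤ N) (hL : 0 ≤ L) {ζ ζ' : ℂ}
    (h1 : ζ.re ≤ Real.log r - 1 / N) (h1' : Real.log r - 3 / N ≤ ζ.re)
    (h2 : ζ'.re ≤ Real.log r - 1 / N) (h2' : Real.log r - 3 / N ≤ ζ'.re)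
    (hd : ‖ζ - ζ'‖ ≤ L / N) {g : ℂ → ℝ} (hg : CircleIntegrable g 0 r) (hg0 : ∀ z, 0 ≤ g z) :
    PI r g (Complex.exp ζ) ≤ (3 * (1 + 2 * L) ^ 2) * PI r g (Complex.exp ζ') := by
  have hN0 : 0 < N := by linarith
  have hb : ∀ ξ : ℂ, ξ.re ≤ Real.log r - 1 / N → Complex.exp ξ ∈ ball (0 : ℂ) r := by
    intro ξ hξ
    rw [mem_ball_zero_iff, Complex.norm_exp]
    calc Real.exp ξ.re < Real.exp (Real.log r) := by
          apply Real.exp_lt_exp.2
          have : 0 < 1 / N := by positivity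
          linarith
      _ = r := Real.exp_log hr
  have hci : ∀ z ∈ ball (0 : ℂ) r, CircleIntegrable (fun w => poissonKernel 0 z w * g w) 0 r := by
    intro z hz
    have hK : ContinuousOn (poissonKernel 0 z) (sphere (0 : ℂ) |r|) := by
      rw [poissonKernel_eq_re_herglotzRieszKernel]
      exact Complex.continuous_re.comp_continuousOn (continuousOn_herglotzRieszKernel_sphere hz)
    exact hg.continuousOn_smul hK
  have h3 : (3 * (1 + 2 * L) ^ 2) * PI r g (Complex.exp ζ') = Real.circleAverage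
      (fun w => (3 * (1 + 2 * L) ^ 2) • (poissonKernel 0 (Complex.exp ζ') w * g w)) 0 r := by
    rw [Real.circleAverage_fun_smul]
    rfl
  rw [h3, PI]
  apply Real.circleAverage_mono (hci _ (hb ζ h1))
  · exact (hci _ (hb ζ' h2)).const_smul
  · intro w hw
    rw [abs_of_pos hr] at hw
    have hw' : ‖w‖ = r := by simpa using hw
    have h4 := kernel_compare hr hN hL h1 h1' h2 h2' hd hw'
    simp only [smul_eq_mul]
    rw [← mul_assoc]
    exact mul_le_mul_of_nonneg_right h4 (hg0 w)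

end Pool.Agent.H808R2.Gap
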