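import Mathlib

set_option autoImplicit false

/-!
# Regular indices of a summable sequence
-/

open Filter Topology Set Finset

noncomputable section

namespace Pool.Agent.H808R2.Gap

/-- the distance of two natural numbers -/
def dd (j k : ℕ) : ℕ := (j - k) + (k - j)

theorem dd_comm (j k : ℕ) : dd j k = dd k j := by unfold dd; omega

theorem dd_tri (i j k : ℕ) : dd i k ≤ dd i j + dd j k := by unfold dd; omega

theorem dd_self (i : ℕ) : dd i i = 0 := by unfold dd; omega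

theorem geom_le {x : ℝ} (hx0 : 0 ≤ x) (hx1 : x < 1) (K : ℕ) :
    ∑ j ∈ range K, x ^ j ≤ 1 / (1 - x) := by
  rw [geom_sum_eq hx1.ne, ← neg_div_neg_eq, neg_sub, neg_sub]
  have h1 : 0 < 1 - x := by linarith
  have h2 : 0 ≤ x ^ K := pow_nonneg hx0 K
  gcongr
  linarith

theorem sum_dd_le {x : ℝ} (hx0 : 0 ≤ x) (hx1 : x < 1) (k K : ℕ) :
    ∑ j ∈ range K, x ^ dd j k ≤ 2 / (1 - x) := by
  have h1 : ∑ j ∈ range K, x ^ dd j k ≤ ∑ j ∈ range (k + K), x ^ dd j k := by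
    apply sum_le_sum_of_subset_of_nonneg
    · intro j hj
      rw [Finset.mem_range] at hj ⊢
      omega
    · intro i _ _
      positivity
  refine h1.trans ?_
  rw [Finset.sum_range_add]
  have h2 : ∑ j ∈ range k, x ^ dd j k ≤ 1 / (1 - x) := by
    rw [← Finset.sum_range_reflect]
    refine le_trans (sum_le_sum fun j hj => ?_) (geom_le hx0 hx1 k)
    rw [Finset.mem_range] at hj
    apply pow_le_pow_of_le_one hx0 hx1.le
    unfold dd
    omega
  have h3 : ∑ j ∈ range K, x ^ dd (k + j) k ≤ 1 / (1 - x) := by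
    refine le_trans (sum_le_sum fun j hj => ?_) (geom_le hx0 hx1 K)
    apply pow_le_pow_of_le_one hx0 hx1.le
    unfold dd
    omega
  have : 2 / (1 - x) = 1 / (1 - x) + 1 / (1 - x) := by ring
  linarith

theorem summable_dd {x : ℝ} (hx0 : 0 ≤ x) (hx1 : x < 1) (k : ℕ) :
    Summable fun j => x ^ dd j k :=
  summable_of_sum_range_le (fun _ => by positivity) (sum_dd_le hx0 hx1 k)

theorem tsum_dd_le {x : ℝ} (hx0 : 0 ≤ x) (hx1 : x < 1) (k : ℕ) :
    ∑' j, x ^ dd j k ≤ 2 / (1 - x) :=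
  Real.tsum_le_of_sum_range_le (fun _ => by positivity) (sum_dd_le hx0 hx1 k)

/-- regular indices -/
def Reg (β : ℕ → ℝ) (κ : ℝ) (j : ℕ) : Prop := ∀ i, β i * κ ^ dd i j ≤ β j

theorem exists_regular {β : ℕ → ℝ} (hβ0 : ∀ k, 0 ≤ β k) (hβ : Tendsto β atTop (𝓝 0)) {κ : ℝ}
    (hκ0 : 0 < κ) (hκ1 : κ < 1) (k : ℕ) :
    ∃ j, Reg β κ j ∧ β k ≤ β j * κ ^ dd j k := by
  -- maximise
  have hmax : ∃ j, ∀ i, β i * κ ^ dd i k ≤ β j * κ ^ dd j k := by
    by_cases h0 : ∃ j₀, 0 < β j₀ * κ ^ dd j₀ k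
    · obtain ⟨j₀, hj₀⟩ := h0
      have h1 : ∀ᶠ i in atTop, β i < β j₀ * κ ^ dd j₀ k := hβ.eventually_lt_const hj₀
      obtain ⟨K, hK⟩ := eventually_atTop.1 h1
      obtain ⟨j, hj, hmax⟩ := Finset.exists_max_image (range (K + j₀ + 1)) (fun i => β i * κ ^ dd i k)
        ⟨j₀, by rw [Finset.mem_range]; omega⟩
      refine ⟨j, fun i => ?_⟩
      by_cases hi : i < K + j₀ + 1
      · exact hmax i (Finset.mem_range.2 hi)
      · have h2 := hK i (by omega)
        have h3 := hmax j₀ (by rw [Finset.mem_range]; omega)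
        have h4 : β i * κ ^ dd i k ≤ β i * 1 := by
          apply mul_le_mul_of_nonneg_left _ (hβ0 i)
          exact pow_le_one₀ hκ0.le hκ1.le
        linarith
    · push Not at h0
      refine ⟨k, fun i => (h0 i).trans ?_⟩
      have := hβ0 k
      positivity
  obtain ⟨j, hj⟩ := hmax
  refine ⟨j, fun i => ?_, ?_⟩
  · have h1 := hj i
    have h2 : β i * κ ^ dd i j * κ ^ dd j k ≤ β j * κ ^ dd j k := by
      refine le_trans ?_ h1
      rw [mul_assoc, ← pow_add]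
      apply mul_le_mul_of_nonneg_left _ (hβ0 i)
      exact pow_le_pow_of_le_one hκ0.le hκ1.le (dd_tri i j k)
    exact le_of_mul_le_mul_right h2 (by positivity)
  · have h1 := hj k
    rw [dd_self, pow_zero, mul_one] at h1
    exact h1

/-- the summation over all indices -/
theorem sum_regular {β : ℕ → ℝ} (hβ0 : ∀ k, 0 ≤ β k) (hβ : Tendsto β atTop (𝓝 0)) {κ : ℝ}
    (hκ0 : 0 < κ) (hκ1 : κ < 1) {X C : ℝ} (hX : 0 ≤ X) (hC : 0 ≤ C) {Δ : ℕ → ℝ}
    (hΔ : ∀ j, 0 ≤ Δ j) (h : ∀ j, Reg β κ j → β j ^ 2 * X ≤ C * Δ j) (K : ℕ) :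
    ∃ J, (∑ k ∈ range K, β k ^ 2) * X ≤ C * (2 / (1 - κ ^ 2)) * ∑ j ∈ range J, Δ j := by
  choose f hf1 hf2 using exists_regular hβ0 hβ hκ0 hκ1
  refine ⟨(range K).sup f + 1, ?_⟩
  set J := (range K).sup f + 1 with hJ
  have hk2 : (0 : ℝ) ≤ κ ^ 2 := by positivity
  have hk2' : κ ^ 2 < 1 := pow_lt_one₀ hκ0.le hκ1 (by norm_num)
  have h1 : ∀ k ∈ range K, β k ^ 2 * X ≤ ∑ j ∈ range J, C * Δ j * (κ ^ 2) ^ dd j k := by
    intro k hk
    have h2 : β k ^ 2 * X ≤ C * Δ (f k) * (κ ^ 2) ^ dd (f k) k := by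
      have h3 : β k ^ 2 ≤ (β (f k) * κ ^ dd (f k) k) ^ 2 := pow_le_pow_left₀ (hβ0 k) (hf2 k) 2
      calc β k ^ 2 * X ≤ (β (f k) * κ ^ dd (f k) k) ^ 2 * X := by gcongr
        _ = (β (f k) ^ 2 * X) * (κ ^ 2) ^ dd (f k) k := by ring
        _ ≤ (C * Δ (f k)) * (κ ^ 2) ^ dd (f k) k := by
            apply mul_le_mul_of_nonneg_right (h _ (hf1 k)) (by positivity)
    refine h2.trans ?_
    apply Finset.single_le_sum (f := fun j => C * Δ j * (κ ^ 2) ^ dd j k)
    · intro i _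
      have := hΔ i
      positivity
    · rw [Finset.mem_range, hJ]
      have : f k ≤ (range K).sup f := Finset.le_sup hk
      omega
  calc (∑ k ∈ range K, β k ^ 2) * X = ∑ k ∈ range K, β k ^ 2 * X := by rw [Finset.sum_mul]
    _ ≤ ∑ k ∈ range K, ∑ j ∈ range J, C * Δ j * (κ ^ 2) ^ dd j k := sum_le_sum h1
    _ = ∑ j ∈ range J, ∑ k ∈ range K, C * Δ j * (κ ^ 2) ^ dd j k := Finset.sum_comm
    _ = ∑ j ∈ range J, C * Δ j * ∑ k ∈ range K, (κ ^ 2) ^ dd k j := by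
        refine sum_congr rfl fun j _ => ?_
        rw [Finset.mul_sum]
        refine sum_congr rfl fun k _ => ?_
        rw [dd_comm]
    _ ≤ ∑ j ∈ range J, C * Δ j * (2 / (1 - κ ^ 2)) := by
        refine sum_le_sum fun j _ => ?_
        apply mul_le_mul_of_nonneg_left (sum_dd_le hk2 hk2' j K)
        exact mul_nonneg hC (hΔ j)
    _ = C * (2 / (1 - κ ^ 2)) * ∑ j ∈ range J, Δ j := by
        rw [Finset.mul_sum]
        refine sum_congr rfl fun j _ => ?_
        ring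

/-- telescoping with a shift -/
theorem tele_shift {P Q : ℕ → ℝ} {A : ℝ} {m : ℕ} (hPA : ∀ j, P j ≤ A) (hA : 0 ≤ A)
    (hQ : ∀ j, 0 ≤ Q j) (hPQ : ∀ j, P j ≤ Q (m + j)) (J : ℕ) :
    ∑ j ∈ range J, (P j - Q j) ≤ m * A := by
  rcases le_total J m with h | h
  · calc ∑ j ∈ range J, (P j - Q j) ≤ ∑ _j ∈ range J, A := by
          refine sum_le_sum fun j _ => ?_
          have := hPA j
          have := hQ j
          linarith
      _ = J * A := by rw [Finset.sum_const, Finset.card_range, nsmul_eq_mul]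
      _ ≤ m * A := by
          apply mul_le_mul_of_nonneg_right _ hA
          exact_mod_cast h
  · obtain ⟨J', rfl⟩ := Nat.exists_eq_add_of_le h
    rw [Finset.sum_sub_distrib]
    have h1 : ∑ j ∈ range (m + J'), Q j = ∑ j ∈ range m, Q j + ∑ j ∈ range J', Q (m + j) :=
      Finset.sum_range_add _ _ _
    have h2 : ∑ j ∈ range (m + J'), P j = ∑ j ∈ range J', P j + ∑ j ∈ range m, P (J' + j) := by
      rw [add_comm m J']
      exact Finset.sum_range_add _ _ _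
    have h3 : ∑ j ∈ range J', P j ≤ ∑ j ∈ range J', Q (m + j) := sum_le_sum fun j _ => hPQ j
    have h4 : ∑ j ∈ range m, P (J' + j) ≤ m * A := by
      calc ∑ j ∈ range m, P (J' + j) ≤ ∑ _j ∈ range m, A := sum_le_sum fun j _ => hPA _
        _ = m * A := by rw [Finset.sum_const, Finset.card_range, nsmul_eq_mul]
    have h5 : 0 ≤ ∑ j ∈ range m, Q j := Finset.sum_nonneg fun j _ => hQ j
    linarith

/-! ### Gap sequences -/

theorem gap_pow {n : ℕ → ℕ} {κ : ℝ} (hκ0 : 0 < κ) (hg : ∀ k, (n k : ℝ) ≤ κ ^ 2 * n (k + 1)) (j i : ℕ) :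
    (n j : ℝ) ≤ κ ^ (2 * i) * n (j + i) := by
  induction i with
  | zero => simp
  | succ i ih =>
    calc (n j : ℝ) ≤ κ ^ (2 * i) * n (j + i) := ih
      _ ≤ κ ^ (2 * i) * (κ ^ 2 * n (j + i + 1)) := by
          apply mul_le_mul_of_nonneg_left (hg _) (by positivity)
      _ = κ ^ (2 * (i + 1)) * n (j + (i + 1)) := by
          rw [show j + i + 1 = j + (i + 1) by ring]; ring

/-- the terms of the off-diagonal sum -/
theorem off_term {n : ℕ → ℕ} {κ : ℝ} (hκ0 : 0 < κ) (hκ1 : κ < 1) (hn : ∀ k, 1 ≤ n k)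
    (hg : ∀ k, (n k : ℝ) ≤ κ ^ 2 * n (k + 1)) {β : ℕ → ℝ} (hβ0 : ∀ k, 0 ≤ β k) {k : ℕ}
    (hk : Reg β κ k) {j : ℕ} (hj : j ≠ k) :
    (n j : ℝ) * (β j * Real.exp (-(2 * n j / n k))) / |(n j : ℝ) - n k| ≤
      β k / (1 - κ ^ 2) * κ ^ dd j k := by
  have hk2' : κ ^ 2 < 1 := pow_lt_one₀ hκ0.le hκ1 (by norm_num)
  have hnk : (0 : ℝ) < n k := by exact_mod_cast hn k
  have hnj : (0 : ℝ) < n j := by exact_mod_cast hn j
  have hreg := hk j
  have h1k : 0 < 1 - κ ^ 2 := by linarith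
  rcases lt_or_gt_of_ne hj with h | h
  · obtain ⟨i, rfl⟩ := Nat.exists_eq_add_of_lt h
    have hd : dd j (j + i + 1) = i + 1 := by unfold dd; omega
    rw [hd] at hreg ⊢
    have h1 := gap_pow hκ0 hg j (i + 1)
    rw [← add_assoc] at h1
    have h2 : κ ^ (2 * (i + 1)) ≤ κ ^ 2 := pow_le_pow_of_le_one hκ0.le hκ1.le (by omega)
    have h3 : (n j : ℝ) ≤ κ ^ 2 * n (j + i + 1) := h1.trans (by gcongr)
    have habs : |(n j : ℝ) - n (j + i + 1)| = n (j + i + 1) - n j := by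
      rw [abs_of_nonpos]
      · ring
      · nlinarith
    rw [habs]
    have h4 : (1 - κ ^ 2) * n (j + i + 1) ≤ n (j + i + 1) - n j := by nlinarith
    have hexp : Real.exp (-(2 * n j / n (j + i + 1))) ≤ 1 := by
      rw [Real.exp_le_one_iff]
      have : 0 ≤ 2 * (n j : ℝ) / n (j + i + 1) := by positivity
      linarith
    calc (n j : ℝ) * (β j * Real.exp (-(2 * n j / n (j + i + 1)))) / (n (j + i + 1) - n j)
        ≤ (κ ^ (2 * (i + 1)) * n (j + i + 1)) * (β j * 1) / ((1 - κ ^ 2) * n (j + i + 1)) := by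
          have := hβ0 j
          gcongr
      _ = (β j * κ ^ (i + 1)) / (1 - κ ^ 2) * κ ^ (i + 1) := by
          field_simp
          ring
      _ ≤ β (j + i + 1) / (1 - κ ^ 2) * κ ^ (i + 1) := by gcongr
  · obtain ⟨i, rfl⟩ := Nat.exists_eq_add_of_lt h
    have hd : dd (k + i + 1) k = i + 1 := by unfold dd; omega
    rw [hd] at hreg ⊢
    have h1 := gap_pow hκ0 hg k (i + 1)
    rw [← add_assoc] at h1
    have h2 : κ ^ (2 * (i + 1)) ≤ κ ^ 2 := pow_le_pow_of_le_one hκ0.le hκ1.le (by omega)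
    have h3 : (n k : ℝ) ≤ κ ^ 2 * n (k + i + 1) := h1.trans (by gcongr)
    have habs : |(n (k + i + 1) : ℝ) - n k| = n (k + i + 1) - n k := by
      rw [abs_of_nonneg]
      nlinarith
    rw [habs]
    have h4 : (1 - κ ^ 2) * n (k + i + 1) ≤ n (k + i + 1) - n k := by nlinarith
    set t : ℝ := n (k + i + 1) / n k with ht
    have ht0 : 0 < t := by positivity
    have htk : κ ^ (2 * (i + 1)) * t ≥ 1 := by
      rw [ht, ge_iff_le, ← mul_div_assoc, one_le_div hnk]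
      exact h1
    have hexp : Real.exp (-(2 * n (k + i + 1) / n k)) ≤ κ ^ (2 * (i + 1)) := by
      have e : 2 * (n (k + i + 1) : ℝ) / n k = 2 * t := by rw [ht]; ring
      rw [e, Real.exp_neg]
      have h5 : t ≤ Real.exp (2 * t) := by
        have := Real.add_one_le_exp (2 * t)
        linarith
      have h6 : (Real.exp (2 * t))⁻¹ ≤ t⁻¹ := inv_anti₀ ht0 h5
      refine h6.trans ?_
      rw [inv_le_iff_one_le_mul₀ ht0]
      exact htk
    calc (n (k + i + 1) : ℝ) * (β (k + i + 1) * Real.exp (-(2 * n (k + i + 1) / n k))) /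
          (n (k + i + 1) - n k)
        ≤ (n (k + i + 1) : ℝ) * (β (k + i + 1) * κ ^ (2 * (i + 1))) /
          ((1 - κ ^ 2) * n (k + i + 1)) := by
          have := hβ0 (k + i + 1)
          gcongr
      _ = (β (k + i + 1) * κ ^ (i + 1)) / (1 - κ ^ 2) * κ ^ (i + 1) := by
          field_simp
          ring
      _ ≤ β k / (1 - κ ^ 2) * κ ^ (i + 1) := by gcongr

end Pool.Agent.H808R2.Gap
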