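import Pool.Agent.H808R2.Gap.Loc
import Pool.Agent.H808R2.Gap.Reg

set_option autoImplicit false

/-!
# The `L²` bound
-/

open MeasureTheory Filter Topology Set Metric Real Finset
open scoped ComplexConjugate

noncomputable section

namespace Pool.Agent.H808R2.Gap

variable {a : ℕ → ℂ} {n : ℕ → ℕ} {c : ℂ} {r : ℝ}

theorem cci {E : Type} [NormedAddCommGroup E] {f : ℂ → E} {R : ℝ} (hf : Continuous f) :
    CircleIntegrable f 0 R := ContinuousOn.circleIntegrable' hf.continuousOn

theorem cross_term (hn : StrictMono n) (hr : 0 < r) (K : ℕ) :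
    Real.circleAverage (fun z => (conj (∑ k ∈ range K, a k * z ^ n k) * (a K * z ^ n K)).re) 0 r = 0 := by
  set P : ℂ → ℂ := fun z => ∑ k ∈ range K, (conj (a k) * a K * ((r : ℂ) ^ 2) ^ n k) * z ^ (n K - n k)
    with hP
  have hPd : DiffContOnCl ℂ P (ball 0 |r|) := by
    apply Differentiable.diffContOnCl
    rw [hP]
    fun_prop
  have hP0 : P 0 = 0 := by
    rw [hP]
    simp only
    apply Finset.sum_eq_zero
    intro k hk
    rw [Finset.mem_range] at hk
    have := hn hk
    rw [zero_pow (by omega), mul_zero]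
  have hci : CircleIntegrable P 0 r := by
    apply cci
    rw [hP]
    fun_prop
  have h1 : Real.circleAverage (fun z => (conj (∑ k ∈ range K, a k * z ^ n k) * (a K * z ^ n K)).re) 0 r =
      Real.circleAverage (Complex.reCLM ∘ P) 0 r := by
    apply Real.circleAverage_congr_sphere
    intro z hz
    rw [abs_of_pos hr, mem_sphere_zero_iff_norm] at hz
    have hz2 : conj z * z = (r : ℂ) ^ 2 := by
      rw [mul_comm, Complex.mul_conj, Complex.normSq_eq_norm_sq, hz]
      push_cast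
      rfl
    simp only [Function.comp_apply, Complex.reCLM_apply, hP]
    congr 1
    rw [map_sum, Finset.sum_mul]
    refine Finset.sum_congr rfl fun k hk => ?_
    rw [Finset.mem_range] at hk
    have hlt := hn hk
    have e1 : z ^ n K = z ^ n k * z ^ (n K - n k) := by
      rw [← pow_add]; congr 1; omega
    rw [map_mul, map_pow, e1, ← hz2, mul_pow]
    ring
  rw [h1, Complex.reCLM.circleAverage_comp_comm hci, hPd.circleAverage, hP0]
  simp

theorem l2_partial (hn : StrictMono n) (hr : 0 < r) (K : ℕ) :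
    Real.circleAverage (fun z => ‖∑ k ∈ range K, a k * z ^ n k‖ ^ 2) 0 r =
      ∑ k ∈ range K, (‖a k‖ * r ^ n k) ^ 2 := by
  induction K with
  | zero => simp [Real.circleAverage_const]
  | succ K ih =>
    rw [Finset.sum_range_succ, ← ih]
    have e1 : ∀ z : ℂ, ‖∑ k ∈ range (K + 1), a k * z ^ n k‖ ^ 2 =
        (‖∑ k ∈ range K, a k * z ^ n k‖ ^ 2 + ‖a K * z ^ n K‖ ^ 2) +
        2 * (conj (∑ k ∈ range K, a k * z ^ n k) * (a K * z ^ n K)).re := by
      intro z
      rw [Finset.sum_range_succ]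
      generalize (∑ k ∈ range K, a k * z ^ n k) = F
      generalize a K * z ^ n K = t
      rw [re_conj_mul, ← Complex.normSq_eq_norm_sq, ← Complex.normSq_eq_norm_sq,
        ← Complex.normSq_eq_norm_sq, Complex.normSq_apply, Complex.normSq_apply, Complex.normSq_apply]
      simp only [Complex.add_re, Complex.add_im]
      ring
    have c1 : CircleIntegrable (fun z : ℂ => ‖∑ k ∈ range K, a k * z ^ n k‖ ^ 2) 0 r := by
      apply cci; fun_prop
    have c2 : CircleIntegrable (fun z : ℂ => ‖a K * z ^ n K‖ ^ 2) 0 r := by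
      apply cci; fun_prop
    have c3 : CircleIntegrable (fun z : ℂ =>
        2 • (conj (∑ k ∈ range K, a k * z ^ n k) * (a K * z ^ n K)).re) 0 r := by
      apply cci
      fun_prop
    have e2 : (fun z : ℂ => ‖∑ k ∈ range (K + 1), a k * z ^ n k‖ ^ 2) =
        fun z : ℂ => (‖∑ k ∈ range K, a k * z ^ n k‖ ^ 2 + ‖a K * z ^ n K‖ ^ 2) +
        2 • (conj (∑ k ∈ range K, a k * z ^ n k) * (a K * z ^ n K)).re := by
      funext z
      rw [e1]
      simp
    rw [e2, Real.circleAverage_fun_add (c1.fun_add c2) c3, Real.circleAverage_fun_add c1 c2]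
    have e3 : Real.circleAverage (fun z : ℂ => ‖a K * z ^ n K‖ ^ 2) 0 r = (‖a K‖ * r ^ n K) ^ 2 := by
      apply Real.circleAverage_const_on_circle
      intro z hz
      rw [abs_of_pos hr, mem_sphere_zero_iff_norm] at hz
      rw [norm_mul, norm_pow, hz]
    have e4 : Real.circleAverage (fun z : ℂ =>
        2 • (conj (∑ k ∈ range K, a k * z ^ n k) * (a K * z ^ n K)).re) 0 r = 0 := by
      have := cross_term (a := a) hn hr K
      have h5 : (fun z : ℂ => 2 • (conj (∑ k ∈ range K, a k * z ^ n k) * (a K * z ^ n K)).re) =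
        fun z : ℂ => (2 : ℝ) • (conj (∑ k ∈ range K, a k * z ^ n k) * (a K * z ^ n K)).re := by
        funext z
        simp
      rw [h5, Real.circleAverage_fun_smul, this, smul_zero]
    rw [e3, e4, add_zero]

theorem summable_sq {β : ℕ → ℝ} (h0 : ∀ k, 0 ≤ β k) (hβ : Summable β) : Summable fun k => β k ^ 2 := by
  apply Summable.of_nonneg_of_le (fun k => by positivity) _ (hβ.mul_left (∑' k, β k))
  intro k
  rw [pow_two]
  apply mul_le_mul_of_nonneg_right _ (h0 k)
  exact hβ.le_tsum k fun j _ => h0 j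

/-- the `L¹` norm is at most the `L²` norm -/
theorem l1_le (hn : StrictMono n) (hr : 0 < r)
    (hs : Summable fun k => ‖a k‖ * r ^ n k) {σ : ℝ} (hσ : 0 < σ)
    (hσ2 : ∑' k, (‖a k‖ * r ^ n k) ^ 2 ≤ σ ^ 2) (hcont : ContinuousOn (gs a n c) (sphere 0 r)) :
    Real.circleAverage (fun z => ‖gs a n c z‖) 0 r ≤ ‖c‖ + σ := by
  have hβ0 : ∀ k, 0 ≤ ‖a k‖ * r ^ n k := fun k => by positivity
  have key : ∀ K : ℕ, Real.circleAverage (fun z => ‖gs a n c z‖) 0 r ≤
      ‖c‖ + σ + ∑' k, ‖a (k + K)‖ * r ^ n (k + K) := by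
    intro K
    set τ := ∑' k, ‖a (k + K)‖ * r ^ n (k + K) with hτ
    have hpt : ∀ z ∈ sphere (0 : ℂ) |r|, ‖gs a n c z‖ ≤
        ((2 * σ)⁻¹) • (‖∑ k ∈ range K, a k * z ^ n k‖ ^ 2) + (‖c‖ + σ / 2 + τ) := by
      intro z hz
      rw [abs_of_pos hr, mem_sphere_zero_iff_norm] at hz
      have hsz : Summable fun k => a k * z ^ n k := by
        apply Summable.of_norm
        refine hs.congr fun k => ?_
        rw [norm_mul, norm_pow, hz]
      have h1 : gs a n c z = c + ((∑ k ∈ range K, a k * z ^ n k) + ∑' k, a (k + K) * z ^ n (k + K)) := by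
        rw [hsz.sum_add_tsum_nat_add K]
        rfl
      have h2 : ‖∑' k, a (k + K) * z ^ n (k + K)‖ ≤ τ := by
        apply tsum_of_norm_bounded
        · exact ((summable_nat_add_iff K).2 hs).hasSum
        · intro k
          rw [norm_mul, norm_pow, hz]
      have h3 : ‖gs a n c z‖ ≤ ‖c‖ + (‖∑ k ∈ range K, a k * z ^ n k‖ + τ) := by
        rw [h1]
        refine (norm_add_le _ _).trans ?_
        gcongr
        exact (norm_add_le _ _).trans (by gcongr)
      have h4 : ‖∑ k ∈ range K, a k * z ^ n k‖ ≤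
          (2 * σ)⁻¹ * (‖∑ k ∈ range K, a k * z ^ n k‖ ^ 2) + σ / 2 := by
        have h5 : 0 ≤ (2 * σ)⁻¹ * (‖∑ k ∈ range K, a k * z ^ n k‖ - σ) ^ 2 := by positivity
        have h6 : (2 * σ)⁻¹ * (‖∑ k ∈ range K, a k * z ^ n k‖ - σ) ^ 2 =
            (2 * σ)⁻¹ * (‖∑ k ∈ range K, a k * z ^ n k‖ ^ 2) + σ / 2 -
              ‖∑ k ∈ range K, a k * z ^ n k‖ := by
          field_simp
          ring
        linarith
      rw [smul_eq_mul]
      linarith
    have c1 : CircleIntegrable (fun z : ℂ => ‖∑ k ∈ range K, a k * z ^ n k‖ ^ 2) 0 r := by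
      apply cci; fun_prop
    have c1' : CircleIntegrable (fun z : ℂ => ((2 * σ)⁻¹) • (‖∑ k ∈ range K, a k * z ^ n k‖ ^ 2)) 0 r := by
      apply cci; fun_prop
    have c2 : CircleIntegrable (fun _ : ℂ => ‖c‖ + σ / 2 + τ) 0 r := by
      apply cci; fun_prop
    have h7 := Real.circleAverage_mono (f₁ := fun z => ‖gs a n c z‖)
      (f₂ := fun z : ℂ => ((2 * σ)⁻¹) • (‖∑ k ∈ range K, a k * z ^ n k‖ ^ 2) + (‖c‖ + σ / 2 + τ))
      (hcont.norm.circleIntegrable hr.le) (c1'.fun_add c2) hpt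
    refine h7.trans ?_
    rw [Real.circleAverage_fun_add c1' c2, Real.circleAverage_fun_smul, l2_partial hn hr K,
      Real.circleAverage_const, smul_eq_mul]
    have h8 : ∑ k ∈ range K, (‖a k‖ * r ^ n k) ^ 2 ≤ σ ^ 2 := by
      refine le_trans ?_ hσ2
      exact (summable_sq hβ0 hs).sum_le_tsum _ fun k _ => by positivity
    have h9 : (2 * σ)⁻¹ * ∑ k ∈ range K, (‖a k‖ * r ^ n k) ^ 2 ≤ (2 * σ)⁻¹ * σ ^ 2 := by gcongr
    have h10 : (2 * σ)⁻¹ * σ ^ 2 = σ / 2 := by field_simp
    linarith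
  have hlim : Tendsto (fun K : ℕ => ‖c‖ + σ + ∑' k, ‖a (k + K)‖ * r ^ n (k + K)) atTop
      (𝓝 (‖c‖ + σ + 0)) :=
    tendsto_const_nhds.add (tendsto_sum_nat_add fun k => ‖a k‖ * r ^ n k)
  rw [add_zero] at hlim
  exact ge_of_tendsto' hlim key

end Pool.Agent.H808R2.Gap
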