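import Pool.Agent.H808R2.Gap.Inc

set_option autoImplicit false

/-!
# Local lower bounds for the derivative of a gap series
-/

open MeasureTheory Filter Topology Set Metric Real
open scoped ComplexConjugate

noncomputable section

namespace Pool.Agent.H808R2.Gap

/-- the gap series -/
def gs (a : ℕ → ℂ) (n : ℕ → ℕ) (c : ℂ) (z : ℂ) : ℂ := c + ∑' k, a k * z ^ n k

section Series

variable {a : ℕ → ℂ} {n : ℕ → ℕ} {c : ℂ}

theorem norm_term_le {ρ : ℝ} {z : ℂ} (hz : ‖z‖ ≤ ρ) (k : ℕ) :
    ‖a k * z ^ n k‖ ≤ ‖a k‖ * ρ ^ n k := by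
  rw [norm_mul, norm_pow]
  have := norm_nonneg z
  gcongr

theorem gs_diff (hs : ∀ ρ : ℝ, 0 < ρ → ρ < 1 → Summable fun k => ‖a k‖ * ρ ^ n k) :
    DifferentiableOn ℂ (gs a n c) (ball 0 1) := by
  intro z hz
  have hz1 : ‖z‖ < 1 := by simpa using hz
  set ρ := (1 + ‖z‖) / 2 with hρ
  have hρ0 : 0 < ρ := by have := norm_nonneg z; rw [hρ]; linarith
  have hρ1 : ρ < 1 := by rw [hρ]; linarith
  have hzρ : ‖z‖ < ρ := by rw [hρ]; linarith
  have h1 : DifferentiableOn ℂ (fun w : ℂ => ∑' k, a k * w ^ n k) (ball 0 ρ) := by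
    apply Complex.differentiableOn_tsum_of_summable_norm (hs ρ hρ0 hρ1)
    · intro k
      fun_prop
    · exact isOpen_ball
    · intro k w hw
      exact norm_term_le (by simpa using (mem_ball_zero_iff.1 hw).le) k
  have h2 : DifferentiableAt ℂ (fun w : ℂ => ∑' k, a k * w ^ n k) z :=
    h1.differentiableAt (isOpen_ball.mem_nhds (by simpa using hzρ))
  exact (h2.const_add c).differentiableWithinAt

theorem gs_deriv (hs : ∀ ρ : ℝ, 0 < ρ → ρ < 1 → Summable fun k => ‖a k‖ * ρ ^ n k) {ζ : ℂ}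
    (hζ : ζ.re < 0) :
    HasSum (fun k => a k * ((n k : ℂ) * Complex.exp (n k * ζ)))
      (deriv (fun w => gs a n c (Complex.exp w)) ζ) := by
  set x := ζ.re / 2 with hx
  have hx0 : x < 0 := by rw [hx]; linarith
  have hζx : ζ.re < x := by rw [hx]; linarith
  have hρ1 : Real.exp x < 1 := (Real.exp_lt_exp.2 hx0).trans_eq Real.exp_zero
  have hU : IsOpen {w : ℂ | w.re < x} := isOpen_lt Complex.continuous_re continuous_const
  have h := Complex.hasSum_deriv_of_summable_norm (F := fun k w => a k * Complex.exp w ^ n k)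
    (hs (Real.exp x) (Real.exp_pos _) hρ1) (fun i => by fun_prop) hU
    (fun i w hw => by
      apply norm_term_le
      rw [Complex.norm_exp]
      exact Real.exp_le_exp.2 (le_of_lt hw)) hζx
  have e1 : deriv (fun w => gs a n c (Complex.exp w)) ζ =
      deriv (fun w => ∑' k, a k * Complex.exp w ^ n k) ζ := by
    unfold gs
    rw [deriv_const_add]
  rw [e1]
  have e3 : (fun k => a k * ((n k : ℂ) * Complex.exp (n k * ζ))) =
      fun k => deriv (fun w => a k * Complex.exp w ^ n k) ζ := by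
    funext k
    have e2 : (fun w : ℂ => a k * Complex.exp w ^ n k) =
        fun w : ℂ => a k * Complex.exp (n k * w) := by
      funext w
      rw [← Complex.exp_nat_mul]
    rw [e2]
    have h3 : HasDerivAt (fun w : ℂ => a k * Complex.exp (n k * w))
        (a k * (Complex.exp (n k * ζ) * (n k * 1))) ζ :=
      (((hasDerivAt_id ζ).const_mul (n k : ℂ)).cexp).const_mul (a k)
    rw [h3.deriv]
    ring
  rw [e3]
  exact h

end Series

theorem exp_int_bound {m δ : ℝ} (hm : m ≠ 0) :
    ‖∫ v in (-δ)..δ, Complex.exp (((m : ℂ) * Complex.I) * v)‖ ≤ 2 / |m| := by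
  have hc : (m : ℂ) * Complex.I ≠ 0 := mul_ne_zero (by exact_mod_cast hm) Complex.I_ne_zero
  rw [integral_exp_mul_complex hc, norm_div]
  have h1 : ‖(m : ℂ) * Complex.I‖ = |m| := by
    rw [norm_mul, Complex.norm_I, mul_one, Complex.norm_real, Real.norm_eq_abs]
  rw [h1]
  gcongr
  refine (norm_sub_le _ _).trans ?_
  have e : ∀ t : ℝ, ‖Complex.exp ((m : ℂ) * Complex.I * (t : ℂ))‖ = 1 := by
    intro t
    have : (m : ℂ) * Complex.I * (t : ℂ) = ((m * t : ℝ) : ℂ) * Complex.I := by push_cast; ring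
    rw [this, Complex.norm_exp_ofReal_mul_I]
  rw [e, e]
  norm_num

theorem local_int {b : ℕ → ℂ} {m : ℕ → ℝ} (hb : Summable fun j => ‖b j‖) {k : ℕ} {δ : ℝ}
    (hδ : 0 < δ) (hm : ∀ j, j ≠ k → m j ≠ m k)
    (hS1 : Summable fun j => if j = k then 0 else ‖b j‖ / |m j - m k|)
    (hS : ∑' j, (if j = k then 0 else ‖b j‖ / |m j - m k|) ≤ δ / 2 * ‖b k‖)
    {G : ℝ → ℂ} (hG : ∀ v : ℝ, HasSum (fun j => b j * Complex.exp ((m j * v : ℝ) * Complex.I)) (G v)) :
    δ * ‖b k‖ ≤ ‖∫ v in (-δ)..δ, G v * Complex.exp (-((m k * v : ℝ) * Complex.I))‖ := by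
  set F : ℕ → ℝ → ℂ := fun j v => b j * Complex.exp ((((m j - m k : ℝ) : ℂ) * Complex.I) * v) with hF
  have hFn : ∀ j v, ‖F j v‖ = ‖b j‖ := by
    intro j v
    rw [hF]
    simp only [norm_mul]
    have : (((m j - m k : ℝ) : ℂ) * Complex.I) * v = (((m j - m k) * v : ℝ) : ℂ) * Complex.I := by
      push_cast; ring
    rw [this, Complex.norm_exp_ofReal_mul_I, mul_one]
  have hlim : ∀ v : ℝ, HasSum (fun j => F j v) (G v * Complex.exp (-((m k * v : ℝ) * Complex.I))) := by
    intro v
    have h1 := (hG v).mul_right (Complex.exp (-((m k * v : ℝ) * Complex.I)))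
    have e : (fun j => F j v) = fun j => b j * Complex.exp ((m j * v : ℝ) * Complex.I) *
        Complex.exp (-((m k * v : ℝ) * Complex.I)) := by
      funext j
      rw [hF]
      simp only
      rw [mul_assoc (b j), ← Complex.exp_add]
      congr 2
      push_cast
      ring
    rw [e]
    exact h1
  have hsum : HasSum (fun j => ∫ v in (-δ)..δ, F j v)
      (∫ v in (-δ)..δ, G v * Complex.exp (-((m k * v : ℝ) * Complex.I))) := by
    apply intervalIntegral.hasSum_integral_of_dominated_convergence (fun j _ => ‖b j‖)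
    · intro j
      apply Continuous.aestronglyMeasurable
      rw [hF]
      fun_prop
    · intro j
      exact Eventually.of_forall fun v _ => (hFn j v).le
    · exact Eventually.of_forall fun v _ => hb
    · exact intervalIntegrable_const
    · exact Eventually.of_forall fun v _ => hlim v
  set c : ℕ → ℂ := fun j => ∫ v in (-δ)..δ, F j v with hc
  have hck : c k = 2 * δ * b k := by
    rw [hc, hF]
    simp only [sub_self, Complex.ofReal_zero, zero_mul, Complex.exp_zero, mul_one]
    rw [intervalIntegral.integral_const]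
    simp only [sub_neg_eq_add, Complex.real_smul]
    push_cast
    ring
  have hcj : ∀ j, ‖(if j = k then 0 else c j)‖ ≤ 2 * (if j = k then 0 else ‖b j‖ / |m j - m k|) := by
    intro j
    by_cases hj : j = k
    · simp [hj]
    · simp only [hj, if_false]
      rw [hc]
      simp only [hF]
      rw [intervalIntegral.integral_const_mul, norm_mul]
      have := exp_int_bound (δ := δ) (sub_ne_zero.2 (hm j hj))
      calc ‖b j‖ * ‖∫ v in (-δ)..δ, Complex.exp ((((m j - m k : ℝ) : ℂ) * Complex.I) * v)‖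
          ≤ ‖b j‖ * (2 / |m j - m k|) := by gcongr
        _ = 2 * (‖b j‖ / |m j - m k|) := by ring
  have htot := hsum.summable.tsum_eq_add_tsum_ite k
  rw [hsum.tsum_eq] at htot
  have hnorm : ‖∑' j, (if j = k then 0 else c j)‖ ≤ δ * ‖b k‖ := by
    refine (tsum_of_norm_bounded (hS1.mul_left 2).hasSum hcj).trans ?_
    rw [tsum_mul_left]
    linarith
  rw [htot, hck]
  have h1 : ‖(2 * δ * b k : ℂ)‖ = 2 * δ * ‖b k‖ := by
    rw [norm_mul, norm_mul, Complex.norm_real, Real.norm_eq_abs, abs_of_pos hδ]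
    norm_num
  have h2 := norm_sub_le (2 * (δ : ℂ) * b k + ∑' j, (if j = k then 0 else c j))
    (∑' j, (if j = k then 0 else c j))
  rw [add_sub_cancel_right, h1] at h2
  linarith

/-- lower bound of the window average of the local increment -/
theorem window_lower {h : ℂ → ℂ} (hh : DifferentiableOn ℂ h (ball 0 1)) {y s δ θ M B : ℝ}
    (hs : 0 < s) (hy : y + s < 0) (hδ : 0 < δ) (hM : 0 < M) (hB : 0 ≤ B)
    (hbd : ∀ ζ : ℂ, |ζ.re - y| ≤ s → |ζ.im - θ| ≤ δ + s → nH h ζ ≤ M)
    (hlow : δ * B ≤ ∫ v in (-δ)..δ, ‖deriv (fun w => h (Complex.exp w)) (y + ((θ + v : ℝ) : ℂ) * Complex.I)‖) :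
    s ^ 2 * B ^ 2 / (16 * M) ≤ (2 * δ)⁻¹ * ∫ v in (-δ)..δ, Bf h y s (θ + v) := by
  have hexp : ∀ x : ℝ, x < 0 → Real.exp x < 1 := fun x hx =>
    (Real.exp_lt_exp.2 hx).trans_eq Real.exp_zero
  have hUo : IsOpen {w : ℂ | w.re < 0} := isOpen_lt Complex.continuous_re continuous_const
  have hHd : DifferentiableOn ℂ (fun w => h (Complex.exp w)) {w : ℂ | w.re < 0} := by
    apply hh.comp Complex.differentiable_exp.differentiableOn
    intro w hw
    rw [mem_ball_zero_iff, Complex.norm_exp]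
    exact hexp _ hw
  set g : ℝ → ℝ := fun v => ‖deriv (fun w => h (Complex.exp w)) (y + ((θ + v : ℝ) : ℂ) * Complex.I)‖
    with hg
  have hgc : Continuous g := by
    have h1 : ContinuousOn (deriv fun w => h (Complex.exp w)) {w : ℂ | w.re < 0} :=
      (hHd.deriv hUo).continuousOn
    apply Continuous.norm
    apply h1.comp_continuous (by fun_prop)
    intro v
    simp only [mem_ofPred_eq, Complex.add_re, Complex.ofReal_re, Complex.mul_re, Complex.I_re,
      mul_zero, Complex.ofReal_im, Complex.I_im, mul_one, sub_self, add_zero]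
    linarith
  have hpt : ∀ v ∈ Icc (-δ) δ, s ^ 2 / (4 * M) * (B * g v - B ^ 2 / 4) ≤ Bf h y s (θ + v) := by
    intro v hv
    set ζ₀ : ℂ := y + ((θ + v : ℝ) : ℂ) * Complex.I with hζ₀
    have hre : ζ₀.re = y := by simp [hζ₀]
    have him : ζ₀.im = θ + v := by simp [hζ₀]
    have hball : closedBall ζ₀ s ⊆ {w : ℂ | w.re < 0} := by
      intro w hw
      have h1 : |w.re - ζ₀.re| ≤ s := by
        rw [← Complex.sub_re]
        exact (Complex.abs_re_le_norm _).trans (by simpa [dist_eq_norm] using hw)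
      rw [hre] at h1
      have := (abs_le.1 h1).2
      simp only [mem_ofPred_eq]
      linarith
    have hbM : ∀ z ∈ sphere ζ₀ s, ‖h (Complex.exp z)‖ ≤ M := by
      intro z hz
      have hz' : ‖z - ζ₀‖ = s := by simpa [dist_eq_norm] using hz
      apply hbd z
      · rw [← hre, ← Complex.sub_re, ← hz']
        exact Complex.abs_re_le_norm _
      · have h1 : |z.im - ζ₀.im| ≤ s := by
          rw [← Complex.sub_im, ← hz']
          exact Complex.abs_im_le_norm _
        rw [him] at h1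
        have h2 : |v| ≤ δ := abs_le.2 hv
        calc |z.im - θ| = |(z.im - (θ + v)) + v| := by congr 1; ring
          _ ≤ |z.im - (θ + v)| + |v| := abs_add_le _ _
          _ ≤ δ + s := by linarith
    have h1 := incr_lower hUo hball hs hHd hM hbM
    have h2 : Bf h y s (θ + v) = Real.circleAverage (fun z => ‖h (Complex.exp z)‖) ζ₀ s -
        ‖h (Complex.exp ζ₀)‖ := rfl
    rw [h2]
    have h3 : (s * ‖deriv (fun w => h (Complex.exp w)) ζ₀‖) ^ 2 / (4 * M) =
        s ^ 2 / (4 * M) * (g v) ^ 2 := by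
      rw [hg]; ring
    rw [h3] at h1
    have h4 : s ^ 2 / (4 * M) * (B * g v - B ^ 2 / 4) ≤ s ^ 2 / (4 * M) * (g v) ^ 2 := by
      apply mul_le_mul_of_nonneg_left _ (by positivity)
      nlinarith [sq_nonneg (g v - B / 2)]
    linarith
  have hBc : Continuous fun v => Bf h y s (θ + v) :=
    (Bf_cont hh.continuousOn hs.le (hexp _ hy)).comp (by fun_prop)
  have hint : ∫ v in (-δ)..δ, s ^ 2 / (4 * M) * (B * g v - B ^ 2 / 4) ≤
      ∫ v in (-δ)..δ, Bf h y s (θ + v) := by
    apply intervalIntegral.integral_mono_on (by linarith)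
    · apply Continuous.intervalIntegrable
      fun_prop
    · exact hBc.intervalIntegrable _ _
    · exact hpt
  have hcomp : ∫ v in (-δ)..δ, s ^ 2 / (4 * M) * (B * g v - B ^ 2 / 4) =
      s ^ 2 / (4 * M) * (B * (∫ v in (-δ)..δ, g v) - (2 * δ) * (B ^ 2 / 4)) := by
    rw [intervalIntegral.integral_const_mul, intervalIntegral.integral_sub,
      intervalIntegral.integral_const_mul, intervalIntegral.integral_const, smul_eq_mul]
    · ring
    · apply Continuous.intervalIntegrable
      fun_prop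
    · exact intervalIntegrable_const
  rw [hcomp] at hint
  have h5 : s ^ 2 / (4 * M) * (δ * B ^ 2 / 2) ≤
      s ^ 2 / (4 * M) * (B * (∫ v in (-δ)..δ, g v) - (2 * δ) * (B ^ 2 / 4)) := by
    apply mul_le_mul_of_nonneg_left _ (by positivity)
    have : B * (δ * B) ≤ B * ∫ v in (-δ)..δ, g v := mul_le_mul_of_nonneg_left hlow hB
    nlinarith
  have h6 : s ^ 2 * B ^ 2 / (16 * M) = (2 * δ)⁻¹ * (s ^ 2 / (4 * M) * (δ * B ^ 2 / 2)) := by
    field_simp
    ring
  rw [h6]
  gcongr
  exact h5.trans hint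

end Pool.Agent.H808R2.Gap
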