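import Pool.Agent.H808R2.Gap.PJ
import Pool.Agent.H808R2.Gap.L2

set_option autoImplicit false

/-!
# The logarithmic integral of a Hadamard gap series
-/

open MeasureTheory Filter Topology Set Metric Real
open scoped ComplexConjugate

noncomputable section

namespace Pool.Agent.H808R2.Gap

/-- the window constant -/
def TT (κ : ℝ) : ℝ := 4 * Real.exp 2 / ((1 - κ) * (1 - κ ^ 2))

/-- the Harnack constant -/
def CH (κ : ℝ) : ℝ := 3 * (1 + 2 * (TT κ + 2)) ^ 2

theorem TT_pos {κ : ℝ} (hκ0 : 0 < κ) (hκ1 : κ < 1) : 0 < TT κ := by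
  unfold TT
  have h1 : 0 < 1 - κ := by linarith
  have h2 : κ ^ 2 < 1 := pow_lt_one₀ hκ0.le hκ1 (by norm_num)
  have h3 : 0 < 1 - κ ^ 2 := by linarith
  positivity

theorem CH_pos (κ : ℝ) : 0 ≤ CH κ := by unfold CH; positivity

section

variable {a : ℕ → ℂ} {n : ℕ → ℕ} {c : ℂ} {κ r : ℝ}

/-- the local lower bound for the derivative at a regular index -/
theorem deriv_window (hκ0 : 0 < κ) (hκ1 : κ < 1) (hn : ∀ k, 1 ≤ n k)
    (hg : ∀ k, (n k : ℝ) ≤ κ ^ 2 * n (k + 1))
    (hs : ∀ ρ : ℝ, 0 < ρ → ρ < 1 → Summable fun k => ‖a k‖ * ρ ^ n k)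
    (hr : 0 < r) (hr1 : r < 1) {k : ℕ} (hk : Reg (fun j => ‖a j‖ * r ^ n j) κ k) (θ : ℝ) :
    (TT κ / n k) * (n k * (‖a k‖ * r ^ n k) * Real.exp (-2)) ≤
      ∫ v in (-(TT κ / n k))..(TT κ / n k),
        ‖deriv (fun w => gs a n c (Complex.exp w))
          (((Real.log r - 2 / n k : ℝ) : ℂ) + ((θ + v : ℝ) : ℂ) * Complex.I)‖ := by
  have hnk : (0 : ℝ) < n k := by exact_mod_cast hn k
  have hT := TT_pos hκ0 hκ1
  have hlr : Real.log r < 0 := Real.log_neg hr hr1
  set y : ℝ := Real.log r - 2 / n k with hy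
  have hy0 : y < 0 := by
    have : 0 < 2 / (n k : ℝ) := by positivity
    rw [hy]; linarith
  set δ := TT κ / n k with hδ
  have hδ0 : 0 < δ := by positivity
  set b : ℕ → ℂ := fun j => a j * ((n j : ℂ) * Complex.exp (n j * ((y : ℂ) + θ * Complex.I))) with hb
  have hbn : ∀ j, ‖b j‖ = n j * ((‖a j‖ * r ^ n j) * Real.exp (-(2 * n j / n k))) := by
    intro j
    rw [hb]
    simp only [norm_mul, Complex.norm_natCast, Complex.norm_exp]
    have e1 : ((n j : ℂ) * ((y : ℂ) + θ * Complex.I)).re = n j * y := by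
      simp [Complex.mul_re]
    have e2 : Real.exp (n j * y) = r ^ n j * Real.exp (-(2 * n j / n k)) := by
      rw [hy, show (n j : ℝ) * (Real.log r - 2 / n k) = n j * Real.log r + -(2 * n j / n k) by ring,
        Real.exp_add, Real.exp_nat_mul, Real.exp_log hr]
    rw [e1, e2]
    ring
  have hHS : ∀ v : ℝ, HasSum (fun j => b j * Complex.exp ((((n j : ℝ) * v : ℝ) : ℂ) * Complex.I))
      (deriv (fun w => gs a n c (Complex.exp w)) ((y : ℂ) + ((θ + v : ℝ) : ℂ) * Complex.I)) := by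
    intro v
    have h1 := gs_deriv (c := c) hs (ζ := (y : ℂ) + ((θ + v : ℝ) : ℂ) * Complex.I) (by simpa using hy0)
    have e : (fun j => b j * Complex.exp ((((n j : ℝ) * v : ℝ) : ℂ) * Complex.I)) = fun j =>
        a j * ((n j : ℂ) * Complex.exp (n j * ((y : ℂ) + ((θ + v : ℝ) : ℂ) * Complex.I))) := by
      funext j
      rw [hb]
      simp only
      rw [mul_assoc (a j), mul_assoc (n j : ℂ), ← Complex.exp_add]
      congr 3
      push_cast
      ring
    rw [e]
    exact h1
  have hbsum : Summable fun j => ‖b j‖ := by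
    have h1 := (hHS 0).summable.norm
    refine h1.congr fun j => ?_
    simp
  have hkap : κ ^ 2 < 1 := pow_lt_one₀ hκ0.le hκ1 (by norm_num)
  have hterm : ∀ j, (if j = k then 0 else ‖b j‖ / |(n j : ℝ) - n k|) ≤
      (‖a k‖ * r ^ n k) / (1 - κ ^ 2) * κ ^ dd j k := by
    intro j
    by_cases hj : j = k
    · rw [if_pos hj]
      have : 0 < 1 - κ ^ 2 := by linarith
      positivity
    · rw [if_neg hj, hbn]
      exact off_term (β := fun j => ‖a j‖ * r ^ n j) hκ0 hκ1 hn hg (fun j => by positivity) hk hj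
  have hterm0 : ∀ j, 0 ≤ (if j = k then 0 else ‖b j‖ / |(n j : ℝ) - n k|) := by
    intro j
    split_ifs
    · exact le_rfl
    · positivity
  have hdom : Summable fun j => (‖a k‖ * r ^ n k) / (1 - κ ^ 2) * κ ^ dd j k :=
    (summable_dd hκ0.le hκ1 k).mul_left _
  have hS1 : Summable fun j => (if j = k then 0 else ‖b j‖ / |(n j : ℝ) - n k|) :=
    Summable.of_nonneg_of_le hterm0 hterm hdom
  have hbk : ‖b k‖ = n k * (‖a k‖ * r ^ n k) * Real.exp (-2) := by
    rw [hbn, show -(2 * (n k : ℝ) / n k) = -2 by field_simp]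
    ring
  have hS : ∑' j, (if j = k then 0 else ‖b j‖ / |(n j : ℝ) - n k|) ≤ δ / 2 * ‖b k‖ := by
    refine (hS1.tsum_le_tsum hterm hdom).trans ?_
    rw [tsum_mul_left]
    have h1 := tsum_dd_le hκ0.le hκ1 k
    have h2 : 0 < 1 - κ ^ 2 := by linarith
    have h3 : 0 < 1 - κ := by linarith
    calc (‖a k‖ * r ^ n k) / (1 - κ ^ 2) * ∑' j, κ ^ dd j k
        ≤ (‖a k‖ * r ^ n k) / (1 - κ ^ 2) * (2 / (1 - κ)) := by gcongr
      _ = δ / 2 * ‖b k‖ := by
          rw [hbk, hδ, TT, Real.exp_neg]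
          have : Real.exp 2 ≠ 0 := (Real.exp_pos 2).ne'
          field_simp
          ring
  have hne : ∀ j, j ≠ k → (n j : ℝ) ≠ n k := by
    have hmono : StrictMono n := by
      apply strictMono_nat_of_lt_succ
      intro i
      have h1 := hg i
      have h2 : (0 : ℝ) < n (i + 1) := by exact_mod_cast hn (i + 1)
      have h3 : (n i : ℝ) < n (i + 1) := by nlinarith
      exact_mod_cast h3
    intro j hj h
    exact hj (hmono.injective (by exact_mod_cast h))
  have h := local_int (m := fun j => (n j : ℝ)) hbsum hδ0 hne hS1 hS hHS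
  rw [hbk] at h
  refine h.trans ?_
  refine (intervalIntegral.norm_integral_le_integral_norm (by linarith)).trans (le_of_eq ?_)
  apply intervalIntegral.integral_congr
  intro v _
  simp only
  rw [norm_mul]
  have e1 : ‖Complex.exp (-((((n k : ℝ) * v : ℝ) : ℂ) * Complex.I))‖ = 1 := by
    have : -((((n k : ℝ) * v : ℝ) : ℂ) * Complex.I) = ((-((n k : ℝ) * v) : ℝ) : ℂ) * Complex.I := by
      push_cast; ring
    rw [this, Complex.norm_exp_ofReal_mul_I]
  rw [e1, mul_one]

/-- negative part of the normalised logarithm -/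
def gm (h : ℂ → ℂ) (σ : ℝ) (z : ℂ) : ℝ := max 0 (Real.log σ - Real.log ‖h z‖)

/-- positive part of the normalised logarithm -/
def gp (h : ℂ → ℂ) (σ : ℝ) (z : ℂ) : ℝ := max 0 (Real.log ‖h z‖ - Real.log σ)

theorem gm_nonneg (h : ℂ → ℂ) (σ : ℝ) (z : ℂ) : 0 ≤ gm h σ z := le_max_left _ _

theorem gp_nonneg (h : ℂ → ℂ) (σ : ℝ) (z : ℂ) : 0 ≤ gp h σ z := le_max_left _ _

theorem gp_sub_gm (h : ℂ → ℂ) (σ : ℝ) (z : ℂ) :
    gp h σ z - gm h σ z = Real.log ‖h z‖ - Real.log σ := by
  unfold gp gm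
  rcases le_total (Real.log ‖h z‖) (Real.log σ) with h1 | h1
  · rw [max_eq_left (by linarith), max_eq_right (by linarith)]; ring
  · rw [max_eq_right (by linarith), max_eq_left (by linarith)]; ring

theorem max_zero_eq (x : ℝ) : max 0 x = 2⁻¹ * (x + |x|) := by
  rcases le_total 0 x with h | h
  · rw [max_eq_right h, abs_of_nonneg h]; ring
  · rw [max_eq_left h, abs_of_nonpos h]; ring

theorem log_int {h : ℂ → ℂ} (hh : DifferentiableOn ℂ h (ball 0 1)) (hr : 0 < r) (hr1 : r < 1) :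
    CircleIntegrable (fun z => Real.log ‖h z‖) 0 r := by
  apply MeromorphicOn.circleIntegrable_log_norm
  intro z hz
  rw [abs_of_pos hr, mem_sphere_zero_iff_norm] at hz
  have : z ∈ ball (0 : ℂ) 1 := by rw [mem_ball_zero_iff, hz]; exact hr1
  exact (hh.analyticAt (isOpen_ball.mem_nhds this)).meromorphicAt

theorem gm_int {h : ℂ → ℂ} (hh : DifferentiableOn ℂ h (ball 0 1)) (hr : 0 < r) (hr1 : r < 1)
    (σ : ℝ) : CircleIntegrable (gm h σ) 0 r := by
  have h1 : IntervalIntegrable (fun θ => Real.log σ - Real.log ‖h (circleMap 0 r θ)‖) volume 0 (2 * π) :=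
    intervalIntegrable_const.sub (log_int hh hr hr1)
  have h2 := (h1.add h1.abs).const_mul 2⁻¹
  unfold CircleIntegrable
  refine h2.congr_ae (Eventually.of_forall fun θ => ?_)
  simp only [gm, max_zero_eq]

theorem gp_int {h : ℂ → ℂ} (hh : DifferentiableOn ℂ h (ball 0 1)) (hr : 0 < r) (hr1 : r < 1)
    (σ : ℝ) : CircleIntegrable (gp h σ) 0 r := by
  have h1 : IntervalIntegrable (fun θ => Real.log ‖h (circleMap 0 r θ)‖ - Real.log σ) volume 0 (2 * π) :=
    IntervalIntegrable.sub (log_int hh hr hr1) intervalIntegrable_const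
  have h2 := (h1.add h1.abs).const_mul 2⁻¹
  unfold CircleIntegrable
  refine h2.congr_ae (Eventually.of_forall fun θ => ?_)
  simp only [gp, max_zero_eq]

theorem pk_contOn {z : ℂ} (hz : z ∈ ball (0 : ℂ) r) :
    ContinuousOn (poissonKernel 0 z) (sphere (0 : ℂ) |r|) := by
  rw [poissonKernel_eq_re_herglotzRieszKernel]
  exact Complex.continuous_re.comp_continuousOn (continuousOn_herglotzRieszKernel_sphere hz)

theorem PI_const {z : ℂ} (hz : z ∈ ball (0 : ℂ) r) (x : ℝ) : PI r (fun _ => x) z = x := by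
  have h := (InnerProductSpace.harmonicOnNhd_const (s := closedBall (0:ℂ) r) x).circleAverage_poissonKernel_smul hz
  exact h

/-- the Poisson–Jensen inequality in terms of the two parts of the logarithm -/
theorem PJ_parts {h : ℂ → ℂ} (hh : DifferentiableOn ℂ h (ball 0 1)) (hr : 0 < r) (hr1 : r < 1)
    {σ : ℝ} {z : ℂ} (hz : z ∈ ball (0 : ℂ) r) (hne : h z ≠ 0) :
    PI r (gm h σ) z ≤ PI r (gp h σ) z + (Real.log σ - Real.log ‖h z‖) := by
  have han : AnalyticOnNhd ℂ h (closedBall (0 : ℂ) r) := by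
    intro w hw
    exact hh.analyticAt (isOpen_ball.mem_nhds (closedBall_subset_ball hr1 hw))
  have h1 := pl_PJ hr hz han hne
  have hK := pk_contOn hz
  have i1 : CircleIntegrable (fun w => poissonKernel 0 z w * gp h σ w) 0 r :=
    (gp_int hh hr hr1 σ).continuousOn_smul hK
  have i2 : CircleIntegrable (fun w => poissonKernel 0 z w * gm h σ w) 0 r :=
    (gm_int hh hr hr1 σ).continuousOn_smul hK
  have i3 : CircleIntegrable (fun _ : ℂ => Real.log σ) 0 r := cci continuous_const
  have i4 : CircleIntegrable (fun w => poissonKernel 0 z w * Real.log σ) 0 r :=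
    i3.continuousOn_smul hK
  have i5 : CircleIntegrable (fun w => poissonKernel 0 z w * Real.log ‖h w‖) 0 r :=
    (log_int hh hr hr1).continuousOn_smul hK
  have e1 : PI r (gp h σ) z - PI r (gm h σ) z =
      Real.circleAverage (fun w => poissonKernel 0 z w * Real.log ‖h w‖) 0 r - Real.log σ := by
    have e2 := PI_const hz (Real.log σ)
    unfold PI at e2 ⊢
    rw [← Real.circleAverage_fun_sub i1 i2]
    conv_rhs => rw [← e2]
    simp only
    rw [← Real.circleAverage_fun_sub i5 i4]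
    congr 1
    funext w
    rw [← mul_sub, gp_sub_gm, ← mul_sub]
  have e3 : Real.circleAverage ((Complex.re ∘ herglotzRieszKernel 0 z) • (fun x => Real.log ‖h x‖)) 0 r =
      Real.circleAverage (fun w => poissonKernel 0 z w * Real.log ‖h w‖) 0 r := by
    rw [← poissonKernel_eq_re_herglotzRieszKernel]
    rfl
  rw [e3] at h1
  linarith

end

end Pool.Agent.H808R2.Gap
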