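import Mathlib

set_option autoImplicit false

/-!
# The Poisson–Jensen inequality
(taken from `Pool.Agent.Helper203.GV.PLog`)
-/

open MeasureTheory Filter Topology Set

noncomputable section

namespace Pool.Agent.H808R2.Gap

open scoped ComplexConjugate

theorem pl_id (r : ℝ) (x u : ℂ) :
    ‖(r : ℂ) ^ 2 - conj u * x‖ ^ 2 - r ^ 2 * ‖x - u‖ ^ 2 =
      (r ^ 2 - ‖x‖ ^ 2) * (r ^ 2 - ‖u‖ ^ 2) := by
  rw [Complex.sq_norm, Complex.sq_norm, Complex.sq_norm, Complex.sq_norm, Complex.normSq_apply,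
    Complex.normSq_apply, Complex.normSq_apply, Complex.normSq_apply]
  simp only [Complex.sub_re, Complex.sub_im, Complex.mul_re, Complex.mul_im, Complex.conj_re,
    Complex.conj_im, pow_two, Complex.ofReal_re, Complex.ofReal_im]
  ring

theorem pl_ne {r : ℝ} (hr : 0 < r) {x u : ℂ} (hx : ‖x‖ ≤ r) (hu : ‖u‖ < r) :
    (r : ℂ) ^ 2 - conj u * x ≠ 0 := by
  intro h
  have h1 : (r : ℂ) ^ 2 = conj u * x := sub_eq_zero.1 h
  have h2 := congrArg norm h1
  rw [norm_pow, norm_mul, Complex.norm_real, RCLike.norm_conj, Real.norm_eq_abs, abs_of_pos hr] at h2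
  have h3 : ‖u‖ * ‖x‖ < r * r := by
    have := norm_nonneg u
    have := norm_nonneg x
    nlinarith
  nlinarith

theorem pl_factor {r : ℝ} (hr : 0 < r) {z u : ℂ} (hz : z ∈ Metric.ball (0:ℂ) r)
    (hu : u ∈ Metric.closedBall (0:ℂ) r) (hne : z ≠ u) :
    Real.log ‖z - u‖ ≤ Real.circleAverage
      ((Complex.re ∘ herglotzRieszKernel 0 z) • (fun x => Real.log ‖x - u‖)) 0 r := by
  rcases eq_or_lt_of_le (mem_closedBall_zero_iff.1 hu) with h | h
  · exact (circleAverage_re_herglotzRieszKernel_mul_log₀ (mem_sphere_zero_iff_norm.2 h) hz).ge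
  · set G : ℂ → ℂ := fun x => ((r : ℂ) ^ 2 - conj u * x) / r with hG
    have hr0 : (r : ℂ) ≠ 0 := by exact_mod_cast hr.ne'
    have hGne : ∀ x ∈ Metric.closedBall (0:ℂ) r, G x ≠ 0 := fun x hx =>
      div_ne_zero (pl_ne hr (mem_closedBall_zero_iff.1 hx) h) hr0
    have hGan : ∀ x, AnalyticAt ℂ G x := by
      intro x
      rw [hG]
      fun_prop (disch := exact hr0)
    have hharm : InnerProductSpace.HarmonicOnNhd (fun x => Real.log ‖G x‖)
        (Metric.closedBall (0:ℂ) r) := fun x hx =>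
      (hGan x).harmonicAt_log_norm (hGne x hx)
    have h1 := hharm.circleAverage_re_herglotzRieszKernel_smul hz
    have h2 : Real.circleAverage
        ((Complex.re ∘ herglotzRieszKernel 0 z) • (fun x => Real.log ‖x - u‖)) 0 r =
        Real.circleAverage
        ((Complex.re ∘ herglotzRieszKernel 0 z) • (fun x => Real.log ‖G x‖)) 0 r := by
      apply Real.circleAverage_congr_sphere
      intro x hx
      rw [abs_of_pos hr, mem_sphere_zero_iff_norm] at hx
      have hid := pl_id r x u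
      rw [hx, sub_self, zero_mul] at hid
      have h3 : ‖x - u‖ = ‖G x‖ := by
        rw [hG]
        simp only [norm_div, Complex.norm_real, Real.norm_eq_abs, abs_of_pos hr]
        rw [eq_div_iff hr.ne']
        have h4 : (‖x - u‖ * r) ^ 2 = ‖(r : ℂ) ^ 2 - conj u * x‖ ^ 2 := by linarith
        exact (pow_left_inj₀ (by positivity) (norm_nonneg _) two_ne_zero).1 h4
      simp only [Pi.smul_apply', h3]
    rw [h2, h1]
    apply Real.log_le_log (norm_pos_iff.2 (sub_ne_zero.2 hne))
    rw [hG]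
    simp only [norm_div, Complex.norm_real, Real.norm_eq_abs, abs_of_pos hr]
    rw [le_div_iff₀ hr]
    have hid := pl_id r z u
    have hz' := mem_ball_zero_iff.1 hz
    have h5 : 0 ≤ (r ^ 2 - ‖z‖ ^ 2) * (r ^ 2 - ‖u‖ ^ 2) := by
      apply mul_nonneg
      · have := norm_nonneg z
        nlinarith
      · have := norm_nonneg u
        nlinarith
    have h4 : (‖z - u‖ * r) ^ 2 ≤ ‖(r : ℂ) ^ 2 - conj u * z‖ ^ 2 := by linarith
    exact (pow_le_pow_iff_left₀ (by positivity) (norm_nonneg _) two_ne_zero).1 h4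

theorem pl_PJ {r : ℝ} (hr : 0 < r) {z : ℂ} (hz : z ∈ Metric.ball (0:ℂ) r) {f : ℂ → ℂ}
    (hf : AnalyticOnNhd ℂ f (Metric.closedBall (0:ℂ) r)) (hne : f z ≠ 0) :
    Real.log ‖f z‖ ≤ Real.circleAverage
      ((Complex.re ∘ herglotzRieszKernel 0 z) • (fun x => Real.log ‖f x‖)) 0 r := by
  classical
  set U := Metric.closedBall (0:ℂ) r with hU
  have hzU : z ∈ U := Metric.ball_subset_closedBall hz
  have hfm : MeromorphicOn f U := hf.meromorphicOn
  have hordz : meromorphicOrderAt f z = 0 :=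
    (hf z hzU).meromorphicNFAt.meromorphicOrderAt_eq_zero_iff.2 hne
  have h₂f : ∀ u : U, meromorphicOrderAt f u ≠ ⊤ := by
    apply (hfm.exists_meromorphicOrderAt_ne_top_iff_forall
      ((convex_closedBall (0:ℂ) r).isConnected ⟨z, hzU⟩)).1
    exact ⟨⟨z, hzU⟩, by rw [hordz]; exact WithTop.zero_ne_top⟩
  have h₃f := (MeromorphicOn.divisor f U).finiteSupport (isCompact_closedBall (0:ℂ) r)
  obtain ⟨g, hg, hgne, heq⟩ := hfm.extract_zeros_poles h₂f h₃f
  have hlog := MeromorphicOn.extract_zeros_poles_log hgne heq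
  set D := MeromorphicOn.divisor f U with hD
  set S := h₃f.toFinset with hS
  have hDz : D z = 0 := by
    rw [hD, MeromorphicOn.divisor_apply hfm hzU, hordz]
    rfl
  have hDnn : ∀ u, (0:ℝ) ≤ D u := by
    intro u
    have h1 : 0 ≤ D := MeromorphicOn.AnalyticOnNhd.divisor_nonneg hf
    have h2 : (0 : ℤ) ≤ D u := h1 u
    exact_mod_cast h2
  have hSU : ∀ u ∈ S, u ∈ U := by
    intro u hu
    rw [hS, Set.Finite.mem_toFinset] at hu
    exact D.supportWithinDomain hu
  have hSz : ∀ u ∈ S, z ≠ u := by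
    rintro u hu rfl
    rw [hS, Set.Finite.mem_toFinset] at hu
    exact hu hDz
  have hfs : (∑ᶠ u : ℂ, fun x : ℂ => (D u : ℝ) * Real.log ‖x - u‖) =
      fun x => ∑ u ∈ S, (D u : ℝ) * Real.log ‖x - u‖ := by
    rw [finsum_eq_sum_of_support_subset (s := S)]
    · funext x
      rw [Finset.sum_apply]
    · intro u
      contrapose
      intro hu
      rw [hS, Set.Finite.coe_toFinset] at hu
      have : D u = 0 := by simpa using hu
      simp [this]
      rfl
  rw [hfs] at hlog
  have hgz : g z ≠ 0 := hgne ⟨z, hzU⟩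
  -- equality at z
  have hev : ∀ᶠ x in 𝓝[≠] z, Real.log ‖f x‖ =
      (∑ u ∈ S, (D u : ℝ) * Real.log ‖x - u‖) + Real.log ‖g x‖ := by
    have h1 := (mem_codiscreteWithin_iff_forall_mem_nhdsNE.1 hlog) z hzU
    have h2 : U ∈ 𝓝[≠] z := mem_nhdsWithin_of_mem_nhds (Metric.closedBall_mem_nhds_of_mem hz)
    filter_upwards [h1, h2] with x hx1 hx2
    rcases hx1 with h | h
    · exact h
    · exact absurd hx2 h
  have hLc : Tendsto (fun x => Real.log ‖f x‖) (𝓝[≠] z) (𝓝 (Real.log ‖f z‖)) :=
    (((hf z hzU).continuousAt.norm).log (norm_ne_zero_iff.2 hne)).tendsto.mono_left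
      nhdsWithin_le_nhds
  have hRc : Tendsto (fun x => (∑ u ∈ S, (D u : ℝ) * Real.log ‖x - u‖) + Real.log ‖g x‖)
      (𝓝[≠] z) (𝓝 ((∑ u ∈ S, (D u : ℝ) * Real.log ‖z - u‖) + Real.log ‖g z‖)) := by
    apply Tendsto.mono_left _ nhdsWithin_le_nhds
    apply Tendsto.add
    · apply tendsto_finsetSum
      intro u hu
      apply Tendsto.const_mul
      have hc : ContinuousAt (fun x : ℂ => ‖x - u‖) z := by fun_prop
      exact (hc.log (norm_ne_zero_iff.2 (sub_ne_zero.2 (hSz u hu)))).tendsto
    · exact (((hg z hzU).continuousAt.norm).log (norm_ne_zero_iff.2 hgz)).tendsto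
  have heqz : Real.log ‖f z‖ = (∑ u ∈ S, (D u : ℝ) * Real.log ‖z - u‖) + Real.log ‖g z‖ :=
    tendsto_nhds_unique_of_eventuallyEq hLc hRc hev
  -- the average
  set K : ℂ → ℝ := Complex.re ∘ herglotzRieszKernel 0 z with hK
  have hKc : ContinuousOn K (Metric.sphere (0:ℂ) |r|) :=
    Complex.continuous_re.comp_continuousOn (continuousOn_herglotzRieszKernel_sphere hz)
  have hint1 : ∀ u : ℂ, CircleIntegrable (K • (fun x => Real.log ‖x - u‖)) 0 r := fun u =>
    (circleIntegrable_log_norm_sub_const r).continuousOn_smul hKc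
  have hint2 : CircleIntegrable (K • (fun x => Real.log ‖g x‖)) 0 r := by
    apply CircleIntegrable.continuousOn_smul _ hKc
    apply MeromorphicOn.circleIntegrable_log_norm
    rw [abs_of_pos hr]
    exact (hg.mono Metric.sphere_subset_closedBall).meromorphicOn
  have havg : Real.circleAverage (K • (fun x => Real.log ‖f x‖)) 0 r =
      (∑ u ∈ S, (D u : ℝ) * Real.circleAverage (K • (fun x => Real.log ‖x - u‖)) 0 r) +
        Real.circleAverage (K • (fun x => Real.log ‖g x‖)) 0 r := by
    have h1 : Real.circleAverage (K • (fun x => Real.log ‖f x‖)) 0 r =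
        Real.circleAverage ((∑ u ∈ S, (D u : ℝ) • (K • (fun x => Real.log ‖x - u‖))) +
          K • (fun x => Real.log ‖g x‖)) 0 r := by
      apply Real.circleAverage_congr_codiscreteWithin _ hr.ne'
      rw [abs_of_pos hr]
      have h2 := hlog.filter_mono
        (codiscreteWithin_mono (Metric.sphere_subset_closedBall (x := (0:ℂ)) (ε := r)))
      filter_upwards [h2] with x hx
      simp only [Pi.add_apply, Finset.sum_apply, Pi.smul_apply, Pi.smul_apply', smul_eq_mul] at hx ⊢
      rw [hx, mul_add, Finset.mul_sum]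
      congr 1
      refine Finset.sum_congr rfl fun u _ => ?_
      change K x * ((D u : ℝ) * Real.log ‖x - u‖) = (D u : ℝ) * (K x * Real.log ‖x - u‖)
      ring
    rw [h1, Real.circleAverage_add _ hint2, Real.circleAverage_sum]
    · congr 1
      refine Finset.sum_congr rfl fun u _ => ?_
      rw [Real.circleAverage_smul, smul_eq_mul]
    · intro u _
      exact (hint1 u).const_smul
    · apply CircleIntegrable.sum
      intro u _
      exact (hint1 u).const_smul
  have hgavg : Real.circleAverage (K • (fun x => Real.log ‖g x‖)) 0 r = Real.log ‖g z‖ := by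
    have hh : InnerProductSpace.HarmonicOnNhd (fun x => Real.log ‖g x‖) (Metric.closedBall 0 r) :=
      fun x hx => (hg x hx).harmonicAt_log_norm (hgne ⟨x, hx⟩)
    exact hh.circleAverage_re_herglotzRieszKernel_smul hz
  rw [havg, heqz, hgavg]
  apply add_le_add _ le_rfl
  refine Finset.sum_le_sum fun u hu => ?_
  exact mul_le_mul_of_nonneg_left (pl_factor hr hz (hSU u hu) (hSz u hu)) (hDnn u)

end Pool.Agent.H808R2.Gap
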